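import Mathlib

/-!
# The equation `3 r s ^ m = r ^ 3 + 1`
-/

set_option autoImplicit false
set_option linter.unusedSectionVars false

namespace Run7.h992

lemma three_prime : Prime (3 : ℤ) := Int.prime_three

/-- a square which is an odd power is the square of an odd power -/
lemma sq_pow {m : ℕ} (hm : Odd m) {b B : ℤ} (hb : b ≠ 0) (h : b ^ 2 = B ^ m) : ∃ c : ℤ, b = c ^ m := by
  obtain ⟨j, hj⟩ := hm
  have hm0 : m ≠ 0 := by omega
  have hB : B ≠ 0 := by
    rintro rfl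
    rw [zero_pow hm0] at h
    exact hb (pow_eq_zero_iff (two_ne_zero) |>.1 h)
  have h1 : b ^ m = b * (B ^ j) ^ m := by
    have : b ^ m = b * (b ^ 2) ^ j := by rw [hj]; ring
    rw [this, h]
    ring
  have h2 : B ^ j ∣ b := by
    rw [← Int.pow_dvd_pow_iff hm0, h1]
    exact Dvd.intro_left _ rfl
  obtain ⟨c, hc⟩ := h2
  refine ⟨c, ?_⟩
  have h3 : (B ^ j) ^ m ≠ 0 := pow_ne_zero _ (pow_ne_zero _ hB)
  apply mul_left_cancel₀ h3
  rw [← mul_pow, ← hc, h1]
  ring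

/-- the final form of the equation -/
def Sol (m : ℕ) (A B C D : ℤ) : Prop :=
  A ≠ 0 ∧ B ≠ 0 ∧ C ≠ 0 ∧ D ≠ 0 ∧ IsCoprime A (3 * B) ∧
    A ^ m - C ^ m = 3 ^ ((m - 1) / 2) * B ^ m ∧
    (A ^ m) ^ 2 + A ^ m * (3 ^ ((m - 1) / 2) * B ^ m) + (3 ^ ((m - 1) / 2) * B ^ m) ^ 2 = D ^ m

theorem dio0 {m : ℕ} (hm : Odd m) (hm3 : 3 ≤ m) {a b w v g : ℤ} (hab : IsCoprime a b) (ha : a ≠ 0)
    (hb : b ≠ 0) (hne : a ≠ b) (hwv : IsCoprime w v) (h1 : a ^ 3 - b ^ 3 = w ^ m * g)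
    (h2 : 3 * a * b ^ 2 = v ^ m * g) (hg : g = 1 ∨ g = 3) :
    (∃ A B C : ℤ, A ≠ 0 ∧ B ≠ 0 ∧ C ≠ 0 ∧ A ^ m + B ^ m = C ^ m) ∨
      ∃ A B C D : ℤ, Sol m A B C D := by
  have hm0 : m ≠ 0 := by omega
  have hQ0 : a ^ 2 + a * b + b ^ 2 ≠ 0 := by
    intro h
    have h3 : (2 * a + b) ^ 2 + 3 * b ^ 2 = 0 := by linear_combination 4 * h
    have h4 : 0 < b ^ 2 := by positivity
    have h5 := sq_nonneg (2 * a + b)
    linarith
  have hab' : IsCoprime a (b ^ 2) := hab.pow_right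
  have hfac : (a - b) * (a ^ 2 + a * b + b ^ 2) = a ^ 3 - b ^ 3 := by ring
  have hd0 : a - b ≠ 0 := sub_ne_zero.2 hne
  have hdab : IsCoprime (a - b) (a * b) := by
    refine IsCoprime.mul_right ?_ ?_
    · have : IsCoprime (-b) a := (hab.symm).neg_left
      have h3 := this.add_mul_right_left 1
      rwa [one_mul, neg_add_eq_sub] at h3
    · have h3 := hab.add_mul_right_left (-1)
      rwa [neg_one_mul, ← sub_eq_add_neg] at h3
  rcases hg with rfl | rfl
  · -- `g = 1`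
    rw [mul_one] at h1 h2
    -- 3 ∣ v
    have h3v : (3 : ℤ) ∣ v := by
      apply three_prime.dvd_of_dvd_pow (n := m)
      rw [← h2, mul_assoc]
      exact Dvd.intro _ rfl
    have h3w : ¬ (3 : ℤ) ∣ w := fun h => three_prime.not_isUnit (hwv.isUnit_of_dvd' h h3v)
    have h3d : ¬ (3 : ℤ) ∣ a - b := by
      intro h
      apply h3w
      apply three_prime.dvd_of_dvd_pow (n := m)
      rw [← h1, ← hfac]
      exact h.mul_right _
    have hcopQ : IsCoprime (a - b) (a ^ 2 + a * b + b ^ 2) := by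
      have h4 : a ^ 2 + a * b + b ^ 2 = 3 * (a * b) + (a - b) * (a - b) := by ring
      rw [h4]
      refine IsCoprime.add_mul_left_right ?_ _
      refine IsCoprime.mul_right ?_ hdab
      exact ((three_prime.coprime_iff_not_dvd).2 h3d).symm
    obtain ⟨⟨C, hC⟩, ⟨D, hD⟩⟩ := Int.eq_pow_of_mul_eq_pow_odd hcopQ hm (hfac.trans h1)
    have hC0 : C ≠ 0 := by
      rintro rfl
      rw [zero_pow hm0] at hC
      exact hd0 hC
    have hD0 : D ≠ 0 := by
      rintro rfl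
      rw [zero_pow hm0] at hD
      exact hQ0 hD
    by_cases h3a : (3 : ℤ) ∣ a
    · left
      have h3b : ¬ (3 : ℤ) ∣ b := fun h => three_prime.not_isUnit (hab.isUnit_of_dvd' h3a h)
      have h5 : IsCoprime (3 * a) (b ^ 2) := by
        refine IsCoprime.mul_left ?_ hab'
        exact (((three_prime.coprime_iff_not_dvd).2 h3b)).pow_right
      obtain ⟨⟨A0, hA0⟩, ⟨B0, hB0⟩⟩ := Int.eq_pow_of_mul_eq_pow_odd h5 hm h2
      obtain ⟨B, hB⟩ := sq_pow hm hb hB0
      have h6 : (3 : ℤ) ∣ A0 := by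
        apply three_prime.dvd_of_dvd_pow (n := m)
        rw [← hA0]
        exact Dvd.intro _ rfl
      obtain ⟨A, rfl⟩ := h6
      -- `D ^ m = (C ^ 2) ^ m + (3 A B) ^ m`
      refine ⟨C ^ 2, 3 * A * B, D, pow_ne_zero 2 hC0, ?_, hD0, ?_⟩
      · have hA : A ≠ 0 := by
          rintro rfl
          rw [mul_zero, zero_pow hm0] at hA0
          exact ha (by linarith)
        have hB' : B ≠ 0 := by
          rintro rfl
          rw [zero_pow hm0] at hB
          exact hb hB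
        exact mul_ne_zero (mul_ne_zero three_ne_zero hA) hB'
      · have e1 : (C ^ 2) ^ m = (a - b) ^ 2 := by rw [hC]; ring
        have e2 : (3 * A * B) ^ m = 3 * a * b := by rw [mul_pow, ← hA0, ← hB]
        rw [e1, e2, ← hD]
        ring
    · right
      have h5 : IsCoprime a (3 * b ^ 2) := by
        refine IsCoprime.mul_right ?_ hab'
        exact ((three_prime.coprime_iff_not_dvd).2 h3a).symm
      have h2' : a * (3 * b ^ 2) = v ^ m := by rw [← h2]; ring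
      obtain ⟨⟨A, hA⟩, ⟨B0, hB0⟩⟩ := Int.eq_pow_of_mul_eq_pow_odd h5 hm h2'
      have h6 : (3 : ℤ) ∣ B0 := by
        apply three_prime.dvd_of_dvd_pow (n := m)
        rw [← hB0]
        exact Dvd.intro _ rfl
      obtain ⟨B1, rfl⟩ := h6
      obtain ⟨j, hj⟩ := hm
      have hj' : (m - 1) / 2 = j := by omega
      have h7 : b ^ 2 = (3 ^ j) ^ 2 * B1 ^ m := by
        apply mul_left_cancel₀ (three_ne_zero (α := ℤ))
        rw [hB0, mul_pow, hj]
        ring
      have h8 : (3 : ℤ) ^ j ∣ b := by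
        rw [← Int.pow_dvd_pow_iff two_ne_zero, h7]
        exact Dvd.intro _ rfl
      obtain ⟨b1, hb1⟩ := h8
      have h9 : b1 ^ 2 = B1 ^ m := by
        have h10 : ((3 : ℤ) ^ j) ^ 2 ≠ 0 := by positivity
        apply mul_left_cancel₀ h10
        rw [← h7, hb1]
        ring
      have hb10 : b1 ≠ 0 := by
        rintro rfl
        rw [mul_zero] at hb1
        exact hb hb1
      obtain ⟨B, hB⟩ := sq_pow ⟨j, hj⟩ hb10 h9
      have hbB : b = 3 ^ ((m - 1) / 2) * B ^ m := by rw [hj', hb1, hB]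
      refine ⟨A, B, C, D, ?_, ?_, hC0, hD0, ?_, ?_, ?_⟩
      · rintro rfl
        rw [zero_pow hm0] at hA
        exact ha hA
      · rintro rfl
        rw [zero_pow hm0] at hB
        exact hb10 hB
      · have hA' : A ∣ a := by rw [hA]; exact dvd_pow_self A hm0
        have hB' : B ∣ b := by rw [hbB]; exact (dvd_pow_self B hm0).mul_left _
        refine IsCoprime.mul_right ?_ ?_
        · exact (((three_prime.coprime_iff_not_dvd).2 h3a).symm).of_isCoprime_of_dvd_left hA'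
        · exact (hab.of_isCoprime_of_dvd_left hA').of_isCoprime_of_dvd_right hB'
      · rw [← hbB, ← hA, ← hC]
        ring
      · rw [← hbB, ← hA, ← hD]
  · -- `g = 3`
    left
    have h2' : a * b ^ 2 = v ^ m := by
      apply mul_left_cancel₀ (three_ne_zero (α := ℤ))
      rw [← mul_assoc, h2]
      ring
    obtain ⟨⟨A, hA⟩, ⟨B0, hB0⟩⟩ := Int.eq_pow_of_mul_eq_pow_odd hab' hm h2'
    obtain ⟨B, hB⟩ := sq_pow hm hb hB0
    have h3 : (3 : ℤ) ∣ a - b := by
      have h4 : (3 : ℤ) ∣ (a - b) ^ 3 := by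
        have h5 : (a - b) ^ 3 = (a ^ 3 - b ^ 3) - 3 * (a * b * (a - b)) := by ring
        rw [h5, h1]
        exact dvd_sub (Dvd.intro_left _ rfl) (Dvd.intro _ rfl)
      exact three_prime.dvd_of_dvd_pow h4
    obtain ⟨e, he⟩ := h3
    have h5 : (a - b) * (3 * e ^ 2 + a * b) = w ^ m := by
      apply mul_left_cancel₀ (three_ne_zero (α := ℤ))
      have h6 : (3 : ℤ) * ((a - b) * (3 * e ^ 2 + a * b)) = a ^ 3 - b ^ 3 := by
        have h7 : (3 : ℤ) * (3 * e ^ 2 + a * b) = a ^ 2 + a * b + b ^ 2 := by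
          linear_combination (-(3 * e) - (a - b)) * he
        linear_combination (a - b) * h7
      rw [h6, h1]
      ring
    have h6 : IsCoprime (a - b) (3 * e ^ 2 + a * b) := by
      have h7 : 3 * e ^ 2 + a * b = a * b + (a - b) * e := by rw [he]; ring
      rw [h7]
      exact IsCoprime.add_mul_left_right hdab e
    obtain ⟨⟨C, hC⟩, -⟩ := Int.eq_pow_of_mul_eq_pow_odd h6 hm h5
    refine ⟨C, B, A, ?_, ?_, ?_, ?_⟩
    · rintro rfl
      rw [zero_pow hm0] at hC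
      exact hd0 hC
    · rintro rfl
      rw [zero_pow hm0] at hB
      exact hb hB
    · rintro rfl
      rw [zero_pow hm0] at hA
      exact ha hA
    · rw [← hC, ← hB, ← hA]
      ring

theorem dio {m : ℕ} (hm : Odd m) (hm3 : 3 ≤ m) {r s : ℚ} (hs : s ≠ 0) (hr : r ≠ 0)
    (h : 3 * r * s ^ m = r ^ 3 + 1) :
    (∃ A B C : ℤ, A ≠ 0 ∧ B ≠ 0 ∧ C ≠ 0 ∧ A ^ m + B ^ m = C ^ m) ∨
      ∃ A B C D : ℤ, Sol m A B C D := by
  have hm0 : m ≠ 0 := by omega
  obtain ⟨a, ha⟩ : ∃ a : ℤ, a = -r.num := ⟨_, rfl⟩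
  obtain ⟨b, hb⟩ : ∃ b : ℤ, b = r.den := ⟨_, rfl⟩
  obtain ⟨w, hw⟩ : ∃ w : ℤ, w = s.num := ⟨_, rfl⟩
  obtain ⟨v, hv⟩ : ∃ v : ℤ, v = s.den := ⟨_, rfl⟩
  have hb0 : b ≠ 0 := by rw [hb]; exact_mod_cast r.den_ne_zero
  have hv0 : v ≠ 0 := by rw [hv]; exact_mod_cast s.den_ne_zero
  have ha0 : a ≠ 0 := by
    rw [ha]
    exact neg_ne_zero.2 (Rat.num_ne_zero.2 hr)
  have hw0 : w ≠ 0 := by
    rw [hw]
    exact Rat.num_ne_zero.2 hs
  have hab : IsCoprime a b := by
    rw [ha, hb]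
    exact (Rat.isCoprime_num_den r).neg_left
  have hwv : IsCoprime w v := by
    rw [hw, hv]
    exact Rat.isCoprime_num_den s
  have hrab : r = -(a : ℚ) / b := by
    rw [ha, hb]
    push_cast
    rw [neg_neg]
    exact (Rat.num_div_den r).symm
  have hswv : s = (w : ℚ) / v := by
    rw [hw, hv]
    exact_mod_cast (Rat.num_div_den s).symm
  have hbQ : (b : ℚ) ≠ 0 := by exact_mod_cast hb0
  have hvQ : (v : ℚ) ≠ 0 := by exact_mod_cast hv0
  have h1 : 3 * a * b ^ 2 * w ^ m = (a ^ 3 - b ^ 3) * v ^ m := by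
    rw [hrab, hswv, div_pow] at h
    field_simp at h
    have h2 : (3 * a * b ^ 2 * w ^ m : ℚ) = (a ^ 3 - b ^ 3) * v ^ m := by
      linear_combination (-1 : ℚ) * h
    exact_mod_cast h2
  have hne : a ≠ b := by
    rintro rfl
    rw [sub_self, zero_mul] at h1
    have := mul_ne_zero (mul_ne_zero (mul_ne_zero three_ne_zero ha0) (pow_ne_zero 2 ha0))
      (pow_ne_zero m hw0)
    exact this h1
  have hwm : IsCoprime (w ^ m) (v ^ m) := hwv.pow
  have h2 : w ^ m ∣ a ^ 3 - b ^ 3 := hwm.dvd_of_dvd_mul_right (by rw [← h1]; exact Dvd.intro_left _ rfl)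
  obtain ⟨g, hg⟩ := h2
  have hwm0 : w ^ m ≠ 0 := pow_ne_zero _ hw0
  have h3 : 3 * a * b ^ 2 = v ^ m * g := by
    apply mul_left_cancel₀ hwm0
    rw [hg] at h1
    linear_combination h1
  have h4 : IsCoprime (a ^ 3 - b ^ 3) (a * b ^ 2) := by
    refine IsCoprime.mul_right ?_ ?_
    · have h5 : IsCoprime (-(b ^ 3)) a := (hab.symm.pow_left).neg_left
      have h6 := h5.add_mul_left_left (a ^ 2)
      have h7 : -b ^ 3 + a * a ^ 2 = a ^ 3 - b ^ 3 := by ring
      rwa [h7] at h6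
    · have h5 : IsCoprime (a ^ 3) b := hab.pow_left
      have h6 := h5.add_mul_left_left (-b ^ 2)
      have h7 : a ^ 3 + b * -b ^ 2 = a ^ 3 - b ^ 3 := by ring
      rw [h7] at h6
      exact h6.pow_right
  have hgd : g ∣ 3 := by
    have h5 : IsCoprime g (a * b ^ 2) := h4.of_isCoprime_of_dvd_left (by rw [hg]; exact Dvd.intro_left _ rfl)
    apply h5.dvd_of_dvd_mul_right
    rw [← mul_assoc, h3]
    exact Dvd.intro_left _ rfl
  have hgc : g = 1 ∨ g = 3 ∨ g = -1 ∨ g = -3 := by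
    have h5 : g.natAbs ∣ 3 := by
      have := Int.natAbs_dvd_natAbs.2 hgd
      simpa using this
    have h6 := (Nat.dvd_prime Nat.prime_three).1 h5
    omega
  rcases hgc with h5 | h5 | h5 | h5
  · exact dio0 hm hm3 hab ha0 hb0 hne hwv hg h3 (Or.inl h5)
  · exact dio0 hm hm3 hab ha0 hb0 hne hwv hg h3 (Or.inr h5)
  · refine dio0 hm hm3 (w := -w) (v := -v) (g := 1) hab ha0 hb0 hne hwv.neg_neg ?_ ?_ (Or.inl rfl)
    · rw [hg, h5, hm.neg_pow]; ring
    · rw [h3, h5, hm.neg_pow]; ring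
  · refine dio0 hm hm3 (w := -w) (v := -v) (g := 3) hab ha0 hb0 hne hwv.neg_neg ?_ ?_ (Or.inr rfl)
    · rw [hg, h5, hm.neg_pow]; ring
    · rw [h3, h5, hm.neg_pow]; ring

end Run7.h992
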