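import Pool.Agent.Run7.h992.PW

/-!
# Powers in the Eisenstein integers
-/

set_option autoImplicit false
set_option linter.unusedSectionVars false

namespace Run7.h992

open NumberField

lemma powE (g1 g2 : ℤ) (n : ℕ) : ∃ c1 c2 : ℤ, g2 ∣ c2 ∧ ∀ (M : Type) [CommRing M] (w : M),
    w ^ 2 + w + 1 = 0 → ((g1 : M) + g2 * w) ^ n = c1 + c2 * w := by
  induction n with
  | zero =>
    refine ⟨1, 0, dvd_zero _, ?_⟩
    intro M _ w _
    simp
  | succ n ih =>
    obtain ⟨c1, c2, hc, h⟩ := ih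
    refine ⟨c1 * g1 - c2 * g2, c1 * g2 + c2 * g1 - c2 * g2, ?_, ?_⟩
    · exact dvd_sub (dvd_add (Dvd.intro_left _ rfl) (hc.mul_right _)) (Dvd.intro_left _ rfl)
    · intro M _ w hw
      rw [pow_succ, h M w hw]
      push_cast
      linear_combination (c2 * g2 : M) * hw

lemma powV (t D : ℤ) (n : ℕ) : ∃ V V' e e' : ℤ, (∀ (M : Type) [CommRing M] (x y : M),
    x + y = t → x * y = D → x ^ (n + 1) + y ^ (n + 1) = V ∧ x ^ (n + 2) + y ^ (n + 2) = V') ∧
    V = t ^ (n + 1) - D * e ∧ V' = t ^ (n + 2) - D * e' := by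
  induction n with
  | zero =>
    refine ⟨t, t ^ 2 - 2 * D, 0, 2, ?_, by ring, by ring⟩
    intro M _ x y h1 h2
    refine ⟨by simpa using h1, ?_⟩
    push_cast
    linear_combination (x + y + t) * h1 - 2 * h2
  | succ n ih =>
    obtain ⟨V, V', e, e', h, hV, hV'⟩ := ih
    refine ⟨V', t * V' - D * V, e', t * e' + V, ?_, hV', ?_⟩
    · intro M _ x y h1 h2
      obtain ⟨h3, h4⟩ := h M x y h1 h2
      refine ⟨h4, ?_⟩
      push_cast
      linear_combination (t : M) * h4 - (D : M) * h3 + (x ^ (n + 2) + y ^ (n + 2)) * h1 -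
        (x ^ (n + 1) + y ^ (n + 1)) * h2
    · rw [hV']
      ring

lemma two_indep {R : Type} [CommRing R] [CharZero R] {w : R} (hw : w ^ 2 + w + 1 = 0) {x y : ℤ}
    (h : (x : R) + y * w = 0) : x = 0 ∧ y = 0 := by
  have h1 : x ^ 2 - x * y + y ^ 2 = 0 := by
    have h2 : ((x ^ 2 - x * y + y ^ 2 : ℤ) : R) = 0 := by
      push_cast
      linear_combination ((x : R) - y * w - y) * h + (y : R) ^ 2 * hw
    exact_mod_cast h2
  have h3 : (2 * x - y) ^ 2 + 3 * y ^ 2 = 0 := by linear_combination 4 * h1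
  have h4 : y = 0 := by
    by_contra hy
    have h5 : 0 < y ^ 2 := by positivity
    have h6 := sq_nonneg (2 * x - y)
    linarith
  subst h4
  have h5 : x ^ 2 = 0 := by linear_combination h1
  exact ⟨pow_eq_zero_iff two_ne_zero |>.1 h5, rfl⟩

/-- `a - b ω` is a power. -/
theorem eisF (F : Type) [Field F] [NumberField F] [IsCyclotomicExtension {3} ℚ F]
    {p : ℕ} (hp : p.Coprime 6) {a b D : ℤ} (hab : IsCoprime a b) (h3 : IsCoprime D 3)
    (h : a ^ 2 + a * b + b ^ 2 = D ^ p) :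
    ∃ g1 g2 : ℤ, g2 ∣ b ∧ g1 ^ 2 - g1 * g2 + g2 ^ 2 = D ∧ ∀ (M : Type) [CommRing M] (w : M),
      w ^ 2 + w + 1 = 0 → ((g1 : M) + g2 * w) ^ p = a - b * w := by
  have hodd : Odd p := by
    rw [← Nat.not_even_iff_odd]
    intro he
    have := Nat.dvd_gcd he.two_dvd (show 2 ∣ 6 by norm_num)
    rw [hp] at this
    omega
  have : Fact (Nat.Prime 3) := ⟨Nat.prime_three⟩
  have hη : IsPrimitiveRoot (IsCyclotomicExtension.zeta 3 ℚ F) 3 :=
    IsCyclotomicExtension.zeta_spec 3 ℚ F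
  obtain ⟨w, hw⟩ : ∃ w : 𝓞 F, w = hη.toInteger := ⟨_, rfl⟩
  have hw1 : w ^ 2 + w + 1 = 0 := by
    rw [hw]
    exact IsCyclotomicExtension.Rat.Three.eta_sq_add_eta_add_one hη
  have hcl : (classNumber F).Coprime p := by
    have : classNumber F = 1 := by
      rw [classNumber_eq_one_iff]
      exact IsCyclotomicExtension.Rat.three_pid F
    rw [this]
    exact Nat.coprime_one_left p
  have hprod : ((a : 𝓞 F) - b * w) * (a + b * (1 + w)) = (D : 𝓞 F) ^ p := by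
    have h1 : ((a ^ 2 + a * b + b ^ 2 : ℤ) : 𝓞 F) = ((D ^ p : ℤ) : 𝓞 F) := by rw [h]
    push_cast at h1
    linear_combination h1 - (b : 𝓞 F) ^ 2 * hw1
  have hcop : IsCoprime ((a : 𝓞 F) - b * w) (a + b * (1 + w)) := by
    obtain ⟨s, t, hst⟩ := hab
    have hst' : (s : 𝓞 F) * a + t * b = 1 := by exact_mod_cast congrArg (Int.cast : ℤ → 𝓞 F) hst
    obtain ⟨m, n, hmn⟩ := (h3.pow_left (m := p))
    have hmn' : (m : 𝓞 F) * (D : 𝓞 F) ^ p + n * 3 = 1 := by
      exact_mod_cast congrArg (Int.cast : ℤ → 𝓞 F) hmn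
    -- with x = a - b w, y = a + b (1 + w): y - x = b (1 + 2 w), (1 + w) x + w y = a (1 + 2 w)
    refine ⟨m * (a + b * (1 + w)) + n * (-(1 + 2 * w)) * (s * (1 + w) - t), n * (-(1 + 2 * w)) * (s * w + t), ?_⟩
    have e1 : (s * (1 + w) - t) * ((a : 𝓞 F) - b * w) + (s * w + t) * (a + b * (1 + w)) =
        (1 + 2 * w) * (s * a + t * b) := by ring
    have e2 : (1 + 2 * w) ^ 2 = -3 := by linear_combination 4 * hw1
    rw [← hprod] at hmn'
    linear_combination hmn' + n * (-(1 + 2 * w)) * e1 + n * (-(1 + 2 * w)) * (1 + 2 * w) * hst' - n * e2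
  obtain ⟨u, r, hr⟩ := pw hcl hcop hprod
  -- the unit is a power
  have hu6 : u ^ 6 = 1 := by
    have hmem := IsCyclotomicExtension.Rat.Three.Units.mem hη u
    have hw3 : hη.toInteger ^ 3 = 1 := hη.toInteger_isPrimitiveRoot.pow_eq_one
    have key : ∀ v : (𝓞 F)ˣ, (v : 𝓞 F) ^ 6 = 1 → v ^ 6 = 1 := fun v hv => by
      apply Units.ext
      rw [Units.val_pow_eq_pow_val, hv, Units.val_one]
    apply key
    simp only [List.mem_cons, List.not_mem_nil, or_false] at hmem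
    rcases hmem with h1 | h1 | h1 | h1 | h1 | h1
    · rw [h1]; simp
    · rw [h1, Units.val_neg, Units.val_one]; norm_num
    · rw [h1]
      show hη.toInteger ^ 6 = 1
      linear_combination (hη.toInteger ^ 3 + 1) * hw3
    · rw [h1]
      show (-hη.toInteger) ^ 6 = 1
      linear_combination (hη.toInteger ^ 3 + 1) * hw3
    · rw [h1]
      show (hη.toInteger ^ 2) ^ 6 = 1
      linear_combination (hη.toInteger ^ 3 + 1) * (hη.toInteger ^ 6 + 1) * hw3
    · rw [h1]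
      show (-hη.toInteger ^ 2) ^ 6 = 1
      linear_combination (hη.toInteger ^ 3 + 1) * (hη.toInteger ^ 6 + 1) * hw3
  have hpp : p * p % 6 = 1 := by
    have h1 : p % 6 = 1 ∨ p % 6 = 5 := by
      have h2 : ¬ 2 ∣ p := by
        intro h2
        have := Nat.dvd_gcd h2 (show 2 ∣ 6 by norm_num)
        rw [hp] at this
        omega
      have h3 : ¬ 3 ∣ p := by
        intro h2
        have := Nat.dvd_gcd h2 (show 3 ∣ 6 by norm_num)
        rw [hp] at this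
        omega
      omega
    rw [Nat.mul_mod]
    rcases h1 with h1 | h1 <;> rw [h1]
  have hupow : u = (u ^ p) ^ p := by
    rw [← pow_mul, pow_eq_pow_mod (p * p) hu6, hpp, pow_one]
  obtain ⟨g, hg⟩ : ∃ g : 𝓞 F, g = ((u ^ p : (𝓞 F)ˣ) : 𝓞 F) * r := ⟨_, rfl⟩
  have hgp : g ^ p = (a : 𝓞 F) - b * w := by
    rw [hr, hg, mul_pow, ← Units.val_pow_eq_pow_val, ← hupow]
  -- coordinates
  have hcoord : ∃ g1 g2 : ℤ, g = (g1 : 𝓞 F) + g2 * w := by
    have hadj : g ∈ Algebra.adjoin ℤ {hη.toInteger} := by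
      have h1 := IsCyclotomicExtension.adjoin_primitive_root_eq_top (A := ℤ) (B := 𝓞 F)
        hη.toInteger_isPrimitiveRoot
      rw [h1]
      exact Algebra.mem_top
    refine Algebra.adjoin_induction (p := fun a _ => ∃ g1 g2 : ℤ, a = (g1 : 𝓞 F) + g2 * w)
      ?_ ?_ ?_ ?_ hadj
    · rintro x rfl
      exact ⟨0, 1, by rw [hw]; simp⟩
    · intro r
      exact ⟨r, 0, by simp⟩
    · rintro x y _ _ ⟨n, m, rfl⟩ ⟨n', m', rfl⟩
      exact ⟨n + n', m + m', by push_cast; ring⟩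
    · rintro x y _ _ ⟨n, m, rfl⟩ ⟨n', m', rfl⟩
      refine ⟨n * n' - m * m', n * m' + m * n' - m * m', ?_⟩
      push_cast
      linear_combination (m * m' : 𝓞 F) * hw1
  obtain ⟨g1, g2, hg12⟩ := hcoord
  obtain ⟨c1, c2, hc2, hc⟩ := powE g1 g2 p
  have h4 : ((c1 - a : ℤ) : 𝓞 F) + ((c2 + b : ℤ) : 𝓞 F) * w = 0 := by
    have h5 := hc (𝓞 F) w hw1
    rw [← hg12, hgp] at h5
    push_cast
    linear_combination -h5
  obtain ⟨h5, h6⟩ := two_indep hw1 h4
  have hca : c1 = a := by omega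
  have hcb : c2 = -b := by omega
  have hall : ∀ (M : Type) [CommRing M] (w : M),
      w ^ 2 + w + 1 = 0 → ((g1 : M) + g2 * w) ^ p = a - b * w := by
    intro M _ w hw
    rw [hc M w hw, hca, hcb]
    push_cast
    ring
  refine ⟨g1, g2, ?_, ?_, hall⟩
  · rw [hcb] at hc2
    exact (dvd_neg).1 hc2
  · have h7 := hall (𝓞 F) w hw1
    have h8 := hall (𝓞 F) (-1 - w) (by linear_combination hw1)
    have h9 : ((g1 ^ 2 - g1 * g2 + g2 ^ 2 : ℤ) : 𝓞 F) ^ p = (D : 𝓞 F) ^ p := by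
      have h10 : ((g1 ^ 2 - g1 * g2 + g2 ^ 2 : ℤ) : 𝓞 F) =
          ((g1 : 𝓞 F) + g2 * w) * ((g1 : 𝓞 F) + g2 * (-1 - w)) := by
        push_cast
        linear_combination (g2 : 𝓞 F) ^ 2 * hw1
      rw [h10, mul_pow, h7, h8, ← hprod]
      ring
    have h11 : (g1 ^ 2 - g1 * g2 + g2 ^ 2) ^ p = D ^ p := by exact_mod_cast h9
    exact hodd.strictMono_pow.injective h11

theorem eis {p : ℕ} (hp : p.Coprime 6) {a b D : ℤ} (hab : IsCoprime a b) (h3 : IsCoprime D 3)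
    (h : a ^ 2 + a * b + b ^ 2 = D ^ p) :
    ∃ g1 g2 : ℤ, g2 ∣ b ∧ g1 ^ 2 - g1 * g2 + g2 ^ 2 = D ∧ ∀ (M : Type) [CommRing M] (w : M),
      w ^ 2 + w + 1 = 0 → ((g1 : M) + g2 * w) ^ p = a - b * w := by
  have hF : IsCyclotomicExtension {3} ℚ (CyclotomicField 3 ℚ) :=
    CyclotomicField.isCyclotomicExtension 3 ℚ
  exact eisF (CyclotomicField 3 ℚ) hp hab h3 h

end Run7.h992
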