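import Pool.Agent.Run7.h992.Reg
import Pool.Agent.Run7.h992.Eis
import Pool.Agent.Run7.h992.Dio

/-!
# The equation `A ^ p - C ^ p = 3 ^ ((p - 1) / 2) B ^ p` with `a ^ 2 + a b + b ^ 2 = D ^ p`
-/

set_option autoImplicit false
set_option linter.unusedSectionVars false

namespace Run7.h992

open NumberField Pool.Agent.Y158.KL Finset

variable {p : ℕ} [hp : Fact p.Prime] {K : Type} [Field K] [NumberField K]
  [hK : IsCyclotomicExtension {p} ℚ K] {ζ : K} (hζ : IsPrimitiveRoot ζ p)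

include hζ in
/-- a large field with a root of unity of order three -/
lemma big : ∃ (M : Type) (_ : Field M) (ι : 𝓞 K →+* M) (w : M), Function.Injective ι ∧
    w ^ 2 + w + 1 = 0 := by
  obtain ⟨s, hs⟩ := IsAlgClosed.exists_pow_nat_eq (-3 : AlgebraicClosure K) (n := 2) (by norm_num)
  have h2 : (2 : AlgebraicClosure K) ≠ 0 := two_ne_zero
  have h4 : (4 : AlgebraicClosure K) ≠ 0 := by norm_num
  refine ⟨AlgebraicClosure K, inferInstance, (algebraMap K _).comp (algebraMap (𝓞 K) K),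
    (-1 + s) / 2, ?_, ?_⟩
  · exact (algebraMap K _).injective.comp (FaithfulSMul.algebraMap_injective (𝓞 K) K)
  · have h5 : 2 * ((-1 + s) / 2) = -1 + s := mul_div_cancel₀ _ h2
    apply mul_left_cancel₀ h4
    linear_combination (2 * ((-1 + s) / 2) + (-1 + s) + 2) * h5 + hs

/-- the three products -/
theorem prods (hp5 : 5 ≤ p) {a b C D B g1 g2 : ℤ} (hC : a - b = C ^ p)
    (hD : a ^ 2 + a * b + b ^ 2 = D ^ p) (hB : b = 3 ^ ((p - 1) / 2) * B ^ p)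
    (hg : g1 ^ 2 - g1 * g2 + g2 ^ 2 = D)
    (hE : ∀ (M : Type) [CommRing M] (w : M), w ^ 2 + w + 1 = 0 →
      ((g1 : M) + g2 * w) ^ p = a - b * w) :
    ∃ B' t : ℤ, B' ^ 2 = B ^ 2 ∧
      (∏ i ∈ range p, (((D : ℤ) : 𝓞 K) + ((-3 * B' * g2 : ℤ) : 𝓞 K) * hζ.toInteger ^ i +
        ((3 * B ^ 2 : ℤ) : 𝓞 K) * (hζ.toInteger ^ i) ^ 2) = (D : 𝓞 K) ^ p) ∧
      (∏ i ∈ range p, (((C ^ 2 : ℤ) : 𝓞 K) + ((C * t : ℤ) : 𝓞 K) * hζ.toInteger ^ i +
        ((D : ℤ) : 𝓞 K) * (hζ.toInteger ^ i) ^ 2) = (D : 𝓞 K) ^ p) ∧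
      (∏ i ∈ range p, (((-3 * g2 ^ 2 : ℤ) : 𝓞 K) -
        (2 - hζ.toInteger ^ i - hζ.toInteger ^ (p - i)) * ((-D : ℤ) : 𝓞 K)) =
          ((-3 * B ^ 2 : ℤ) : 𝓞 K) ^ p) ∧
      (∏ i ∈ range p, (((t ^ 2 : ℤ) : 𝓞 K) -
        (2 - hζ.toInteger ^ i - hζ.toInteger ^ (p - i)) * ((D : ℤ) : 𝓞 K)) =
          ((C ^ 2 : ℤ) : 𝓞 K) ^ p) ∧
      ∃ e : ℤ, t ^ p = -C ^ p + D * e := by
  have hodd : Odd p := hp.out.odd_of_ne_two (by omega)
  have hp0 : 0 < p := hp.out.pos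
  obtain ⟨k, hk⟩ := hodd
  have hk' : (p - 1) / 2 = k := by omega
  rw [hk'] at hB
  obtain ⟨z, hz⟩ : ∃ z : 𝓞 K, z = hζ.toInteger := ⟨_, rfl⟩
  obtain ⟨M, _, ι, w, hι, hw⟩ := big hζ
  have hξ : IsPrimitiveRoot (ι z) p := by
    rw [hz]
    exact hζ.toInteger_isPrimitiveRoot.map_of_injective hι
  obtain ⟨ξ, hξe⟩ : ∃ ξ : M, ξ = ι z := ⟨_, rfl⟩
  rw [← hξe] at hξ
  have hξ0 : ξ ≠ 0 := hξ.ne_zero hp0.ne'
  have hξ' : IsPrimitiveRoot ξ⁻¹ p := hξ.inv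
  have hξinv : ∀ i ∈ range p, ξ ^ (p - i) = ξ⁻¹ ^ i := by
    intro i hi
    have h1 : ξ ^ (p - i) * ξ ^ i = 1 := by
      rw [← pow_add, Nat.sub_add_cancel (mem_range.1 hi).le, hξ.pow_eq_one]
    rw [inv_pow]
    exact eq_inv_of_mul_eq_one_left h1
  have hw3 : w ^ 3 = 1 := by linear_combination (w - 1) * hw
  have hodd : Odd p := ⟨k, hk⟩
  -- notation
  obtain ⟨γ, hγ⟩ : ∃ γ : M, γ = (g1 : M) + g2 * w := ⟨_, rfl⟩
  obtain ⟨γ', hγ'⟩ : ∃ γ' : M, γ' = (g1 : M) + g2 * (-1 - w) := ⟨_, rfl⟩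
  obtain ⟨θ, hθ⟩ : ∃ θ : M, θ = 1 + 2 * w := ⟨_, rfl⟩
  have hθ2 : θ ^ 2 = -3 := by rw [hθ]; linear_combination 4 * hw
  have hγp : γ ^ p = a - b * w := by rw [hγ]; exact hE M w hw
  have hγ'p : γ' ^ p = a - b * (-1 - w) := by
    rw [hγ']
    exact hE M (-1 - w) (by linear_combination hw)
  have hγγ : γ * γ' = D := by
    have : (D : M) = ((g1 ^ 2 - g1 * g2 + g2 ^ 2 : ℤ) : M) := by rw [hg]
    rw [this, hγ, hγ']
    push_cast
    linear_combination (-(g2 : M) ^ 2) * hw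
  have hγd : γ - γ' = g2 * θ := by rw [hγ, hγ', hθ]; ring
  have hbM : (b : M) = 3 ^ k * (B : M) ^ p := by exact_mod_cast congrArg (Int.cast : ℤ → M) hB
  have hCM : (a : M) - b = (C : M) ^ p := by exact_mod_cast congrArg (Int.cast : ℤ → M) hC
  have hDM : (a : M) ^ 2 + a * b + b ^ 2 = (D : M) ^ p := by
    exact_mod_cast congrArg (Int.cast : ℤ → M) hD
  obtain ⟨B', hB'⟩ : ∃ B' : ℤ, B' = (-1) ^ (k + 1) * B := ⟨_, rfl⟩
  have hB'2 : B' ^ 2 = B ^ 2 := by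
    rw [hB', mul_pow, ← pow_mul, mul_comm (k + 1) 2, pow_mul]
    norm_num
  have hB'2M : (B' : M) ^ 2 = (B : M) ^ 2 := by exact_mod_cast congrArg (Int.cast : ℤ → M) hB'2
  have hB'p : ((B' : M) * θ) ^ p = γ ^ p - γ' ^ p := by
    have h1 : (((-1) ^ (k + 1) : ℤ) : M) ^ p = (-1) ^ (k + 1) := by
      push_cast
      rw [← pow_mul, mul_comm, pow_mul, hodd.neg_one_pow]
    have h2 : θ ^ p = θ * (-3) ^ k := by
      rw [hk, pow_succ, pow_mul, hθ2]
      ring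
    have h3 : ((-1 : M)) ^ (k + 1) * (-3) ^ k = - 3 ^ k := by
      rw [pow_succ, show (-3 : M) = -1 * 3 by norm_num, mul_pow]
      have : ((-1 : M)) ^ k * (-1) ^ k = 1 := by rw [← mul_pow]; norm_num
      linear_combination (-(3 : M) ^ k) * this
    rw [mul_pow, hB']
    push_cast
    push_cast at h1
    rw [mul_pow, h1, h2, hγp, hγ'p]
    rw [hbM, hθ]
    linear_combination ((B : M) ^ p * (1 + 2 * w)) * h3
  -- the elements δ, δ'
  have hδ : ∃ (t : ℤ) (δ δ' : M), δ + δ' = t ∧ δ * δ' = D ∧ δ ^ p = w * (a - b * w) ∧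
      δ' ^ p = w ^ 2 * (a - b * (-1 - w)) := by
    have hmod : p % 3 = 1 ∨ p % 3 = 2 := by
      have h3 : ¬ 3 ∣ p := by
        intro h
        have := (Nat.prime_dvd_prime_iff_eq Nat.prime_three hp.out).1 h
        omega
      omega
    have hwp : ∀ n : ℕ, w ^ n = w ^ (n % 3) := fun n => pow_eq_pow_mod n hw3
    rcases hmod with h1 | h1
    · refine ⟨-g1 - g2, w * γ, w ^ 2 * γ', ?_, ?_, ?_, ?_⟩
      · rw [hγ, hγ']
        push_cast
        linear_combination ((g1 : M) + g2 - g2 * w) * hw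
      · rw [← hγγ]
        linear_combination (γ * γ') * hw3
      · rw [mul_pow, hγp, hwp p, h1, pow_one]
      · rw [mul_pow, hγ'p, ← pow_mul, hwp (2 * p), Nat.mul_mod, h1]
    · refine ⟨-g1 + 2 * g2, w ^ 2 * γ, w * γ', ?_, ?_, ?_, ?_⟩
      · rw [hγ, hγ']
        push_cast
        linear_combination ((g1 : M) - g2) * hw + (g2 : M) * hw3
      · rw [← hγγ]
        linear_combination (γ * γ') * hw3
      · rw [mul_pow, hγp, ← pow_mul, hwp (2 * p), Nat.mul_mod, h1]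
        norm_num
      · rw [mul_pow, hγ'p, hwp p, h1]
  obtain ⟨t, δ, δ', hδt, hδD, hδp, hδ'p⟩ := hδ
  have hsum : δ ^ p + δ' ^ p = -(C : M) ^ p := by
    rw [hδp, hδ'p, ← hCM]
    linear_combination ((a : M) + b * w - b * 1 + 0 * b) * hw
  have hprodD : γ ^ p * γ' ^ p = (D : M) ^ p := by rw [← mul_pow, hγγ]
  have hprodD' : δ ^ p * δ' ^ p = (D : M) ^ p := by rw [← mul_pow, hδD]
  refine ⟨B', t, hB'2, ?_, ?_, ?_, ?_, ?_⟩
  · apply hι
    rw [← hz, map_prod, map_pow, map_intCast]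
    have h1 := prod_sub hp0 hξ γ (B' * θ)
    have h2 := prod_sub hp0 hξ γ' (-(B' * θ))
    rw [hodd.neg_pow] at h2
    rw [← hprodD]
    have h3 : γ ^ p * γ' ^ p = (∏ i ∈ range p, (γ - ξ ^ i * (B' * θ))) *
        ∏ i ∈ range p, (γ' - ξ ^ i * -(B' * θ)) := by
      rw [h1, h2, hB'p]
      ring
    rw [h3, ← prod_mul_distrib]
    refine Finset.prod_congr rfl fun i _ => ?_
    simp only [map_add, map_mul, map_pow, map_intCast, ← hξe]
    push_cast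
    linear_combination (-1 : M) * hγγ + (ξ ^ i) ^ 2 * (B' : M) ^ 2 * hθ2 - (ξ ^ i) * (B' : M) * θ * hγd -
      (ξ ^ i) * B' * g2 * hθ2 + 3 * (ξ ^ i) ^ 2 * hB'2M * (-1)
  · apply hι
    rw [← hz, map_prod, map_pow, map_intCast]
    have h1 := prod_sub hp0 hξ (C : M) (-δ)
    have h2 := prod_sub hp0 hξ (C : M) (-δ')
    rw [hodd.neg_pow] at h1 h2
    have h3 : (D : M) ^ p = (∏ i ∈ range p, ((C : M) - ξ ^ i * -δ)) *
        ∏ i ∈ range p, ((C : M) - ξ ^ i * -δ') := by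
      rw [h1, h2, ← hprodD']
      linear_combination (-(C : M) ^ p) * hsum
    rw [h3, ← prod_mul_distrib]
    refine Finset.prod_congr rfl fun i _ => ?_
    simp only [map_add, map_mul, map_pow, map_intCast, ← hξe]
    push_cast
    linear_combination (-(ξ ^ i) ^ 2) * hδD - (ξ ^ i) * (C : M) * hδt
  · apply hι
    rw [← hz, map_prod, map_pow, map_intCast]
    have h1 := prod_sub hp0 hξ γ γ'
    have h2 := prod_sub hp0 hξ' γ γ'
    have h3 : (((-3 * B ^ 2 : ℤ)) : M) ^ p = (∏ i ∈ range p, (γ - ξ ^ i * γ')) *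
        ∏ i ∈ range p, (γ - ξ⁻¹ ^ i * γ') := by
      rw [h1, h2, ← hB'p, ← mul_pow]
      congr 1
      push_cast
      linear_combination (-(B' : M) ^ 2) * hθ2 + 3 * hB'2M
    rw [h3, ← prod_mul_distrib]
    refine Finset.prod_congr rfl fun i hi => ?_
    simp only [map_sub, map_mul, map_pow, map_intCast, map_ofNat, ← hξe]
    rw [hξinv i hi]
    have h4 : ξ ^ i * ξ⁻¹ ^ i = 1 := by rw [← mul_pow, mul_inv_cancel₀ hξ0, one_pow]
    push_cast
    linear_combination (-(2 : M) + ξ ^ i + ξ⁻¹ ^ i) * hγγ - (γ - γ' + g2 * θ) * hγd - (g2 : M) ^ 2 * hθ2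
      - γ' ^ 2 * h4
  · apply hι
    rw [← hz, map_prod, map_pow, map_intCast]
    have h1 := prod_sub hp0 hξ δ (-δ')
    have h2 := prod_sub hp0 hξ' δ (-δ')
    rw [hodd.neg_pow] at h1 h2
    have h3 : (((C ^ 2 : ℤ)) : M) ^ p = (∏ i ∈ range p, (δ - ξ ^ i * -δ')) *
        ∏ i ∈ range p, (δ - ξ⁻¹ ^ i * -δ') := by
      rw [h1, h2, sub_neg_eq_add, hsum]
      push_cast
      ring
    rw [h3, ← prod_mul_distrib]
    refine Finset.prod_congr rfl fun i hi => ?_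
    simp only [map_sub, map_mul, map_pow, map_intCast, map_ofNat, ← hξe]
    rw [hξinv i hi]
    have h4 : ξ ^ i * ξ⁻¹ ^ i = 1 := by rw [← mul_pow, mul_inv_cancel₀ hξ0, one_pow]
    push_cast
    linear_combination ((2 : M) - ξ ^ i - ξ⁻¹ ^ i) * hδD - (δ + δ' + t) * hδt - δ' ^ 2 * h4
  · obtain ⟨V, V', e, e', hV, hV1, hV2⟩ := powV t D (p - 2)
    obtain ⟨hV3, hV4⟩ := hV M δ δ' hδt hδD
    have h1 : p - 2 + 2 = p := by omega
    rw [h1] at hV4 hV2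
    refine ⟨e', ?_⟩
    have h2 : (V' : M) = ((-C ^ p : ℤ) : M) := by
      rw [← hV4, hsum]
      push_cast
      ring
    have h3 : Function.Injective (Int.cast : ℤ → M) := by
      have : CharZero (𝓞 K) := inferInstance
      intro x y hxy
      have h4 : ι (x : 𝓞 K) = ι (y : 𝓞 K) := by rw [map_intCast, map_intCast, hxy]
      exact Int.cast_injective (hι h4)
    have h4 := h3 h2
    rw [h4] at hV2
    linarith

end Run7.h992
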