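import Mathlib

/-!
# Coprime factors of `p`-th powers when `p` does not divide the class number
-/

set_option autoImplicit false
set_option linter.unusedSectionVars false

namespace Run7.h992

open NumberField

variable {K : Type} [Field K] [NumberField K]

theorem pw {p : ℕ} (hcop : (classNumber K).Coprime p) {x y w : 𝓞 K}
    (hxy : IsCoprime x y) (h : x * y = w ^ p) :
    ∃ (u : (𝓞 K)ˣ) (r : 𝓞 K), x = u * r ^ p := by
  classical
  have h1 : Ideal.span {x} * Ideal.span {y} = Ideal.span {w} ^ p := by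
    rw [Ideal.span_singleton_mul_span_singleton, Ideal.span_singleton_pow, h]
  have h2 : IsCoprime (Ideal.span {x}) (Ideal.span {y}) :=
    (Ideal.isCoprime_span_singleton_iff x y).2 hxy
  let _ : GCDMonoid (Ideal (𝓞 K)) := UniqueFactorizationMonoid.toGCDMonoid _
  obtain ⟨I, hI⟩ := exists_eq_pow_of_mul_eq_pow_of_coprime h2 h1
  have h3 : (I ^ p).IsPrincipal := by
    rw [← hI]
    exact ⟨⟨x, rfl⟩⟩
  have h4 : I.IsPrincipal := by
    refine Ideal.IsPrincipal.of_isPrincipal_pow_of_coprime ?_ h3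
    exact hcop.symm
  obtain ⟨⟨r, hr⟩⟩ := h4
  have hr' : I = Ideal.span {r} := hr
  rw [hr', Ideal.span_singleton_pow, Ideal.span_singleton_eq_span_singleton] at hI
  obtain ⟨u, hu⟩ := hI.symm
  exact ⟨u, r, by rw [← hu, mul_comm]⟩

/-- If the square of `x` divides `w ^ p` with a coprime cofactor, then `x` is a unit times a power. -/
theorem pw_sq {p : ℕ} (hodd : Odd p) (hcop : (classNumber K).Coprime p) {x y w : 𝓞 K}
    (hx0 : x ≠ 0) (hxy : IsCoprime x y) (h : x ^ 2 * y = w ^ p) :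
    ∃ (u : (𝓞 K)ˣ) (r : 𝓞 K), x = u * r ^ p := by
  have hp0 : p ≠ 0 := by rintro rfl; exact absurd hodd (by decide)
  obtain ⟨u, r, hr⟩ := pw hcop (hxy.pow_left (m := 2)) h
  obtain ⟨k, hk⟩ := hodd
  have h1 : x * x ^ p = ↑(u ^ (k + 1)) * (r ^ (k + 1)) ^ p := by
    have : x * x ^ p = (x ^ 2) ^ (k + 1) := by
      rw [hk]; ring
    rw [this, hr, mul_pow]
    push_cast
    ring
  have h2 : x ^ p ∣ (r ^ (k + 1)) ^ p := by
    refine ⟨↑((u ^ (k + 1))⁻¹ : (𝓞 K)ˣ) * x, ?_⟩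
    have : ((u ^ (k + 1) : (𝓞 K)ˣ) : 𝓞 K) * ↑((u ^ (k + 1))⁻¹ : (𝓞 K)ˣ) = 1 := by
      rw [← Units.val_mul, mul_inv_cancel, Units.val_one]
    calc (r ^ (k + 1)) ^ p = (((u ^ (k + 1) : (𝓞 K)ˣ) : 𝓞 K) * ↑((u ^ (k + 1))⁻¹ : (𝓞 K)ˣ)) * (r ^ (k + 1)) ^ p := by
          rw [this, one_mul]
      _ = ↑((u ^ (k + 1))⁻¹ : (𝓞 K)ˣ) * (↑(u ^ (k + 1)) * (r ^ (k + 1)) ^ p) := by ring
      _ = x ^ p * (↑((u ^ (k + 1))⁻¹ : (𝓞 K)ˣ) * x) := by rw [← h1]; ring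
  have h3 : x ∣ r ^ (k + 1) := (IsIntegrallyClosed.pow_dvd_pow_iff hp0).1 h2
  obtain ⟨s, hs⟩ := h3
  refine ⟨u ^ (k + 1), s, ?_⟩
  rw [hs, mul_pow] at h1
  have h4 : x ^ p ≠ 0 := pow_ne_zero _ hx0
  apply mul_right_cancel₀ h4
  rw [h1]; ring

end Run7.h992
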