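import Pool.Agent.Y158.KL.Glob1
import Pool.Agent.Run7.h992.PW

/-!
# Elementary facts on the ring of integers of the `p`-th cyclotomic field
-/

set_option autoImplicit false
set_option linter.unusedSectionVars false

namespace Run7.h992

open NumberField Pool.Agent.Y158.KL Finset

/-- `x ^ p - y ^ p` as a product -/
theorem prod_sub {M : Type} [CommRing M] [IsDomain M] {p : ℕ} (hp : 0 < p) {z : M}
    (hz : IsPrimitiveRoot z p) (x y : M) :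
    ∏ i ∈ range p, (x - z ^ i * y) = x ^ p - y ^ p := by
  classical
  rw [hz.pow_sub_pow_eq_prod_sub_mul x y hp]
  refine Finset.prod_nbij (fun i => z ^ i) ?_ ?_ ?_ (fun i _ => rfl)
  · intro i _
    rw [Polynomial.mem_nthRootsFinset hp, ← pow_mul, mul_comm, pow_mul, hz.pow_eq_one, one_pow]
  · intro i hi j hj hij
    exact hz.pow_inj (by simpa using hi) (by simpa using hj) hij
  · intro w hw
    have h1 : w ^ p = 1 := (Polynomial.mem_nthRootsFinset hp 1).1 hw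
    have : NeZero p := ⟨hp.ne'⟩
    obtain ⟨i, hi, h2⟩ := hz.eq_pow_of_pow_eq_one h1
    exact ⟨i, by simpa using hi, h2⟩

/-- `x ^ p + y ^ p` as a product -/
theorem prod_add {M : Type} [CommRing M] [IsDomain M] {p : ℕ} (hp : Odd p) {z : M}
    (hz : IsPrimitiveRoot z p) (x y : M) :
    ∏ i ∈ range p, (x + z ^ i * y) = x ^ p + y ^ p := by
  have hp0 : 0 < p := hp.pos
  have h1 := prod_sub hp0 hz x (-y)
  rw [hp.neg_pow, sub_neg_eq_add] at h1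
  rw [← h1]
  exact Finset.prod_congr rfl fun i _ => by ring

variable {p : ℕ} [hp : Fact p.Prime] {K : Type} [Field K] [NumberField K]
  [hK : IsCyclotomicExtension {p} ℚ K] {ζ : K} (hζ : IsPrimitiveRoot ζ p)

lemma zpow_p : hζ.toInteger ^ p = 1 := hζ.toInteger_isPrimitiveRoot.pow_eq_one

/-- differences of powers of `ζ` -/
lemma zdiff {i j : ℕ} (hi : i < p) (hj : j < p) (hij : i ≠ j) :
    ∃ u : (𝓞 K)ˣ, hζ.toInteger ^ i - hζ.toInteger ^ j = (hζ.toInteger - 1) * u := by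
  have h1 : hζ.toInteger ^ i ≠ hζ.toInteger ^ j := fun h =>
    hij (hζ.toInteger_isPrimitiveRoot.pow_inj hi hj h)
  obtain ⟨u, hu⟩ := diff_assoc hζ h1
  exact ⟨u, hu.symm⟩

lemma z_unit : ∃ u : (𝓞 K)ˣ, (u : 𝓞 K) = hζ.toInteger :=
  ⟨(hζ.toInteger_isPrimitiveRoot.isUnit hp.out.ne_zero).unit, rfl⟩

lemma one_add_z_unit (h2 : 2 < p) : ∃ u : (𝓞 K)ˣ, (u : 𝓞 K) = 1 + hζ.toInteger := by
  obtain ⟨u, hu⟩ := zdiff hζ (i := 2) (j := 0) h2 (by omega) (by norm_num)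
  refine ⟨u, ?_⟩
  apply mul_left_cancel₀ (pi_ne_zero hζ)
  rw [← hu]
  ring

lemma pi_dvd_zpow (i : ℕ) : hζ.toInteger - 1 ∣ hζ.toInteger ^ i - 1 := by
  have := sub_dvd_pow_sub_pow hζ.toInteger 1 i
  rwa [one_pow] at this

lemma p_assoc : ∃ u : (𝓞 K)ˣ, (p : 𝓞 K) = (hζ.toInteger - 1) ^ (p - 1) * u := by
  obtain ⟨u, hu⟩ := IsCyclotomicExtension.Rat.associated_zeta_sub_one_pow_prime p hζ
  exact ⟨u, hu.symm⟩

lemma pi_dvd_p : hζ.toInteger - 1 ∣ (p : 𝓞 K) := by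
  have h := (pi_dvd_int hζ (n := (p : ℤ))).2 dvd_rfl
  rwa [Int.cast_natCast] at h

lemma p_dvd_pi_pow : (p : 𝓞 K) ∣ (hζ.toInteger - 1) ^ p := by
  obtain ⟨u, hu⟩ := p_assoc hζ
  have h1 : (hζ.toInteger - 1) ^ p = (hζ.toInteger - 1) ^ (p - 1) * (hζ.toInteger - 1) := by
    rw [← pow_succ, Nat.sub_add_cancel hp.out.one_le]
  rw [h1, hu]
  refine ⟨((u⁻¹ : (𝓞 K)ˣ) : 𝓞 K) * (hζ.toInteger - 1), ?_⟩
  have h2 : (u : 𝓞 K) * ((u⁻¹ : (𝓞 K)ˣ) : 𝓞 K) = 1 := by rw [← Units.val_mul, mul_inv_cancel, Units.val_one]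
  linear_combination (-(hζ.toInteger - 1) ^ (p - 1) * (hζ.toInteger - 1)) * h2

/-- `p`-th powers are congruent to integers modulo `p` -/
lemma pow_int (x : 𝓞 K) : ∃ n : ℤ, (p : 𝓞 K) ∣ x ^ p - n ∧ hζ.toInteger - 1 ∣ x - n := by
  obtain ⟨n, t, ht⟩ := res_int hζ x
  refine ⟨n ^ p, ?_, ?_⟩
  · obtain ⟨r, hr⟩ := exists_add_pow_prime_eq hp.out (n : 𝓞 K) ((hζ.toInteger - 1) * t)
    have h1 : x = n + (hζ.toInteger - 1) * t := by rw [← ht]; ring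
    rw [h1, hr]
    have h2 : (p : 𝓞 K) ∣ ((hζ.toInteger - 1) * t) ^ p := by
      rw [mul_pow]
      exact (p_dvd_pi_pow hζ).mul_right _
    obtain ⟨s, hs⟩ := h2
    refine ⟨s + n * ((hζ.toInteger - 1) * t) * r, ?_⟩
    push_cast
    rw [hs]
    ring
  · have h1 : (p : ℤ) ∣ n ^ p - n := by
      have : Fact p.Prime := hp
      rw [← ZMod.intCast_zmod_eq_zero_iff_dvd]
      push_cast
      rw [ZMod.pow_card, sub_self]
    have h2 : hζ.toInteger - 1 ∣ ((n ^ p - n : ℤ) : 𝓞 K) := (pi_dvd_int hζ).2 h1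
    have h3 : x - ((n ^ p : ℤ) : 𝓞 K) = (x - n) - ((n ^ p - n : ℤ) : 𝓞 K) := by
      push_cast
      ring
    rw [h3]
    exact dvd_sub ⟨t, ht⟩ h2

lemma cop_pi {x : 𝓞 K} (hx : ¬ hζ.toInteger - 1 ∣ x) : IsCoprime (hζ.toInteger - 1) x := by
  obtain ⟨n, t, ht⟩ := res_int hζ x
  have h1 : ¬ (p : ℤ) ∣ n := by
    intro h
    apply hx
    have h2 := (pi_dvd_int hζ).2 h
    have h3 : x = (hζ.toInteger - 1) * t + n := by rw [← ht]; ring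
    rw [h3]
    exact dvd_add (Dvd.intro _ rfl) h2
  have h2 : IsCoprime (p : ℤ) n :=
    (Nat.prime_iff_prime_int.1 hp.out).coprime_iff_not_dvd.2 h1
  obtain ⟨a, b, hab⟩ := h2
  obtain ⟨q, hq⟩ := pi_dvd_p hζ
  have h3 : (a : 𝓞 K) * (p : 𝓞 K) + b * n = 1 := by exact_mod_cast congrArg (Int.cast : ℤ → 𝓞 K) hab
  refine ⟨a * q - b * t, b, ?_⟩
  linear_combination h3 + b * ht - a * hq

/-- a combination of Kummer's lemma and the congruence for `p`-th powers -/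
theorem glue (hKL : ∀ (u : (𝓞 K)ˣ) (n : ℤ), (p : 𝓞 K) ∣ (u : 𝓞 K) - n → ∃ η : (𝓞 K)ˣ, u = η ^ p) {a b : 𝓞 K} {ε : (𝓞 K)ˣ} (hb : ¬ hζ.toInteger - 1 ∣ b)
    (h : (p : 𝓞 K) ∣ a ^ p + ε * b ^ p) : ∃ η : (𝓞 K)ˣ, ε = η ^ p := by
  obtain ⟨n, hn, hn'⟩ := pow_int hζ a
  obtain ⟨m, hm, hm'⟩ := pow_int hζ b
  have h1 : ¬ (p : ℤ) ∣ m := by
    intro h
    apply hb
    have h2 := (pi_dvd_int hζ).2 h
    have h3 := dvd_add hm' h2
    rwa [sub_add_cancel] at h3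
  have h2 : IsCoprime (p : ℤ) m :=
    (Nat.prime_iff_prime_int.1 hp.out).coprime_iff_not_dvd.2 h1
  obtain ⟨s, t, hst⟩ := h2
  have h3 : (s : 𝓞 K) * (p : 𝓞 K) + t * m = 1 := by exact_mod_cast congrArg (Int.cast : ℤ → 𝓞 K) hst
  refine hKL ε (-(t * n)) ?_
  obtain ⟨q, hq⟩ := h
  obtain ⟨q1, hq1⟩ := hn
  obtain ⟨q2, hq2⟩ := hm
  refine ⟨t * (q - q1 - ε * q2) + s * ε, ?_⟩
  push_cast
  linear_combination (t : 𝓞 K) * hq - t * hq1 - t * ε * hq2 - (ε : 𝓞 K) * h3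

end Run7.h992
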