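import Pool.Agent.Run7.h992.Cyc

/-!
# The first case: congruences for quadratic polynomials in `ζ`
-/

set_option autoImplicit false
set_option linter.unusedSectionVars false

namespace Run7.h992

open NumberField Pool.Agent.Y158.KL Finset

variable {p : ℕ} [hp : Fact p.Prime] {K : Type} [Field K] [NumberField K]
  [hK : IsCyclotomicExtension {p} ℚ K] {ζ : K} (hζ : IsPrimitiveRoot ζ p)

include hζ in
lemma indep0 (d : ℕ → ℤ)
    (h : (p : 𝓞 K) ∣ ∑ k ∈ range (p - 1), (d k : 𝓞 K) * hζ.toInteger ^ k) :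
    ∀ k < p - 1, (p : ℤ) ∣ d k := by
  classical
  intro k hk
  obtain ⟨y, hy⟩ := h
  obtain ⟨B, hB⟩ : ∃ B : PowerBasis ℤ (𝓞 K), B = hζ.integralPowerBasis := ⟨_, rfl⟩
  have hdim : B.dim = p - 1 := by
    rw [hB, hζ.integralPowerBasis_dim, Nat.totient_prime hp.out]
  have hgen : B.gen = hζ.toInteger := by rw [hB, hζ.integralPowerBasis_gen]
  have h1 : ∑ k ∈ range (p - 1), (d k : 𝓞 K) * hζ.toInteger ^ k =
      ∑ i : Fin B.dim, (d i) • B.basis i := by
    rw [← hdim, ← Fin.sum_univ_eq_sum_range (fun k => (d k : 𝓞 K) * hζ.toInteger ^ k) B.dim]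
    refine Finset.sum_congr rfl fun i _ => ?_
    rw [B.basis_eq_pow, hgen, zsmul_eq_mul]
  have h2 : B.basis.repr ((p : ℤ) • y) ⟨k, by rw [hdim]; exact hk⟩ = d k := by
    have h3 : (p : ℤ) • y = ∑ i : Fin B.dim, (d i) • B.basis i := by
      rw [← h1, hy, zsmul_eq_mul, Int.cast_natCast]
    rw [h3, B.basis.repr_sum_self]
  rw [← h2, map_smul, Finsupp.smul_apply, smul_eq_mul]
  exact Dvd.intro _ rfl

/-- the powers of `ζ` indexed by the residues modulo `p` -/
noncomputable def zz (i : ZMod p) : 𝓞 K := hζ.toInteger ^ i.val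

lemma zz_nat (n : ℕ) : zz hζ (n : ZMod p) = hζ.toInteger ^ n := by
  unfold zz
  rw [ZMod.val_natCast, ← pow_eq_pow_mod n (zpow_p hζ)]

lemma zz_add (i j : ZMod p) : zz hζ (i + j) = zz hζ i * zz hζ j := by
  unfold zz
  rw [ZMod.val_add, ← pow_eq_pow_mod _ (zpow_p hζ), pow_add]

lemma zz_zero : zz hζ 0 = 1 := by
  unfold zz
  rw [ZMod.val_zero, pow_zero]

lemma sum_zmod {M : Type} [AddCommMonoid M] (f : ZMod p → M) :
    ∑ k : ZMod p, f k = ∑ k ∈ range p, f (k : ZMod p) := by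
  symm
  refine Finset.sum_nbij' (fun k => (k : ZMod p)) (fun k => k.val) ?_ ?_ ?_ ?_ ?_
  · intro k _
    exact mem_univ _
  · intro k _
    exact mem_range.2 (ZMod.val_lt k)
  · intro k hk
    exact ZMod.val_cast_of_lt (mem_range.1 hk)
  · intro k _
    exact ZMod.natCast_zmod_val k
  · intro k _
    rfl

lemma sum_zz : ∑ k : ZMod p, zz hζ k = 0 := by
  rw [sum_zmod]
  have h1 := hζ.toInteger_isPrimitiveRoot.geom_sum_eq_zero hp.out.one_lt
  rw [← h1]
  exact Finset.sum_congr rfl fun k _ => zz_nat hζ k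

include hζ in
theorem indep (c : ZMod p → ℤ) (h : (p : 𝓞 K) ∣ ∑ i : ZMod p, (c i : 𝓞 K) * zz hζ i)
    (i j : ZMod p) : (p : ℤ) ∣ c i - c j := by
  classical
  have hp1 := hp.out.one_lt
  obtain ⟨b, hb⟩ : ∃ b : ZMod p → ℤ, b = fun k => c (k + (j + 1)) - c j := ⟨_, rfl⟩
  have hb' : ∀ k, b k = c (k + (j + 1)) - c j := fun k => by rw [hb]
  have h1 : ∑ k : ZMod p, (b k : 𝓞 K) * zz hζ k =
      zz hζ (-(j + 1)) * ∑ i : ZMod p, (c i : 𝓞 K) * zz hζ i := by
    have h2 : ∑ i : ZMod p, (c i : 𝓞 K) * zz hζ i =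
        ∑ k : ZMod p, (c (k + (j + 1)) : 𝓞 K) * zz hζ (k + (j + 1)) :=
      (Equiv.sum_comp (Equiv.addRight (j + 1)) fun i => (c i : 𝓞 K) * zz hζ i).symm
    rw [h2, mul_sum]
    have h3 : ∑ k : ZMod p, (b k : 𝓞 K) * zz hζ k =
        ∑ k : ZMod p, (c (k + (j + 1)) : 𝓞 K) * zz hζ k - (c j : 𝓞 K) * ∑ k : ZMod p, zz hζ k := by
      rw [mul_sum, ← sum_sub_distrib]
      refine Finset.sum_congr rfl fun k _ => ?_
      rw [hb']
      push_cast
      ring
    rw [h3, sum_zz, mul_zero, sub_zero]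
    refine Finset.sum_congr rfl fun k _ => ?_
    have h4 : zz hζ k = zz hζ (-(j + 1)) * zz hζ (k + (j + 1)) := by
      rw [← zz_add]
      congr 1
      ring
    rw [h4]
    ring
  have h2 : (p : 𝓞 K) ∣ ∑ k ∈ range (p - 1), ((b (k : ZMod p) : ℤ) : 𝓞 K) * hζ.toInteger ^ k := by
    have h3 : ∑ k : ZMod p, (b k : 𝓞 K) * zz hζ k =
        ∑ k ∈ range (p - 1), ((b (k : ZMod p) : ℤ) : 𝓞 K) * hζ.toInteger ^ k := by
      rw [sum_zmod]
      obtain ⟨m, hm⟩ : ∃ m, p = m + 1 := ⟨p - 1, by omega⟩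
      have h4 : b ((p - 1 : ℕ) : ZMod p) = 0 := by
        rw [hb', Nat.cast_sub hp1.le, ZMod.natCast_self]
        have : (0 - ((1 : ℕ) : ZMod p) + (j + 1)) = j := by push_cast; ring
        rw [this, sub_self]
      have h5 : range p = insert (p - 1) (range (p - 1)) := by
        ext x
        simp only [mem_range, mem_insert]
        omega
      rw [h5, sum_insert (by simp), h4, Int.cast_zero, zero_mul, zero_add]
      exact Finset.sum_congr rfl fun k _ => by rw [zz_nat]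
    rw [← h3, h1]
    exact h.mul_left _
  have h3 := indep0 hζ (fun k => b (k : ZMod p)) h2
  have h4 : ∀ k : ZMod p, (p : ℤ) ∣ b k := by
    intro k
    by_cases hk : k.val < p - 1
    · have := h3 k.val hk
      rwa [ZMod.natCast_zmod_val] at this
    · have h5 : k.val = p - 1 := by
        have := ZMod.val_lt k
        omega
      have h6 : k = ((p - 1 : ℕ) : ZMod p) := by rw [← h5, ZMod.natCast_zmod_val]
      have h7 : b k = 0 := by
        rw [h6, hb', Nat.cast_sub hp1.le, ZMod.natCast_self]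
        have : (0 - ((1 : ℕ) : ZMod p) + (j + 1)) = j := by push_cast; ring
        rw [this, sub_self]
      rw [h7]
      exact dvd_zero _
  have h5 := h4 (i - (j + 1))
  rw [hb', sub_add_cancel] at h5
  exact h5

include hζ in
/-- **First case.** -/
theorem FC (h7 : 7 ≤ p) {A T B : ℤ} {ε : (𝓞 K)ˣ} {β : 𝓞 K}
    (h : (A : 𝓞 K) + T * hζ.toInteger + B * hζ.toInteger ^ 2 = ε * β ^ p)
    (hs : ¬ (p : ℤ) ∣ A + T + B) (hA : ¬ (p : ℤ) ∣ A) (hB : ¬ (p : ℤ) ∣ B) : (p : ℤ) ∣ A - B := by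
  classical
  have hodd : Odd p := hp.out.odd_of_ne_two (by omega)
  obtain ⟨c, hc1, hc2⟩ := exists_conj hζ hodd
  obtain ⟨r, hr⟩ := hc2 ε
  obtain ⟨n, ⟨q, hq⟩, -⟩ := pow_int hζ β
  obtain ⟨z, hz⟩ : ∃ z : 𝓞 K, z = hζ.toInteger := ⟨_, rfl⟩
  rw [← hz] at h hc1 hr
  have hcf := congrArg c h
  simp only [map_add, map_mul, map_pow, map_intCast] at hcf
  have hcq := congrArg c hq
  simp only [map_sub, map_pow, map_mul, map_intCast, map_natCast] at hcq
  -- the congruence
  have h1 : (p : 𝓞 K) ∣ z ^ 2 * ((A : 𝓞 K) + T * z + B * z ^ 2) -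
      (-z) ^ r * (A * z ^ 2 + T * z + B) := by
    have h2 : (A : 𝓞 K) * z ^ 2 + T * z + B = z ^ 2 * (A + T * c z + B * c z ^ 2) := by
      linear_combination (-T * z - B * (z * c z + 1)) * hc1
    rw [h2, hcf, h]
    refine ⟨z ^ 2 * (ε * q - (-z) ^ r * c ε * c q), ?_⟩
    linear_combination z ^ 2 * ε * hq - z ^ 2 * (-z) ^ r * c ε * hcq + z ^ 2 * n * hr
  have hπ2 : ∀ m : ℕ, hζ.toInteger - 1 ∣ z ^ m - 1 := fun m => by rw [hz]; exact pi_dvd_zpow hζ m
  -- parity
  have heven : Even r := by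
    by_contra hno
    rw [Nat.not_even_iff_odd] at hno
    rw [hno.neg_pow] at h1
    have h3 : hζ.toInteger - 1 ∣ ((2 * (A + T + B) : ℤ) : 𝓞 K) := by
      have h4 := (pi_dvd_p hζ).trans h1
      have h5 : ((2 * (A + T + B) : ℤ) : 𝓞 K) = (z ^ 2 * ((A : 𝓞 K) + T * z + B * z ^ 2) -
          -z ^ r * (A * z ^ 2 + T * z + B)) - (A * (z ^ 2 - 1) + T * (z ^ 3 - 1) + B * (z ^ 4 - 1))
          - (A * (z ^ (r + 2) - 1) + T * (z ^ (r + 1) - 1) + B * (z ^ r - 1)) := by
        push_cast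
        ring
      rw [h5]
      refine dvd_sub (dvd_sub h4 ?_) ?_
      · exact dvd_add (dvd_add ((hπ2 2).mul_left _) ((hπ2 3).mul_left _)) ((hπ2 4).mul_left _)
      · exact dvd_add (dvd_add ((hπ2 _).mul_left _) ((hπ2 _).mul_left _)) ((hπ2 _).mul_left _)
    rw [pi_dvd_int hζ] at h3
    rcases (Nat.prime_iff_prime_int.1 hp.out).dvd_or_dvd h3 with h4 | h4
    · have := Int.le_of_dvd (by norm_num) h4
      omega
    · exact hs h4
  rw [heven.neg_pow] at h1
  obtain ⟨e, he⟩ : ∃ e : ZMod p, e = (r : ZMod p) - 2 := ⟨_, rfl⟩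
  obtain ⟨d, hd⟩ : ∃ d : ZMod p → ℤ, d = fun i => (if i = 0 then A else 0) + (if i = 1 then T else 0) +
    (if i = 2 then B else 0) - (if i = e then B else 0) - (if i = e + 1 then T else 0) -
    (if i = e + 2 then A else 0) := ⟨_, rfl⟩
  have hd' : ∀ i, d i = (if i = 0 then A else 0) + (if i = 1 then T else 0) +
    (if i = 2 then B else 0) - (if i = e then B else 0) - (if i = e + 1 then T else 0) -
    (if i = e + 2 then A else 0) := fun i => by rw [hd]
  have hsum : ∑ i : ZMod p, (d i : 𝓞 K) * zz hζ i = A * zz hζ 0 + T * zz hζ 1 + B * zz hζ 2 -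
      B * zz hζ e - T * zz hζ (e + 1) - A * zz hζ (e + 2) := by
    simp only [hd', Int.cast_add, Int.cast_sub, Int.cast_ite, Int.cast_zero, add_mul, sub_mul,
      ite_mul, zero_mul, sum_add_distrib, sum_sub_distrib, sum_ite_eq', mem_univ, if_true]
  have hz1 : zz hζ 1 = z := by
    have := zz_nat hζ 1
    rw [Nat.cast_one, pow_one] at this
    rw [this, hz]
  have hz2 : zz hζ 2 = z ^ 2 := by
    have := zz_nat hζ 2
    rw [Nat.cast_ofNat] at this
    rw [this, hz]
  have hze : zz hζ e * z ^ 2 = z ^ r := by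
    rw [← hz2, ← zz_add, he, sub_add_cancel, zz_nat, hz]
  have h3 : (p : 𝓞 K) ∣ ∑ i : ZMod p, (d i : 𝓞 K) * zz hζ i := by
    have hzu : IsUnit (z ^ 2) := by
      rw [hz]
      exact (hζ.toInteger_isPrimitiveRoot.isUnit hp.out.ne_zero).pow 2
    rw [← hzu.dvd_mul_left, hsum, zz_add, zz_add, hz1, hz2, zz_zero]
    obtain ⟨s, hs⟩ := h1
    refine ⟨s, ?_⟩
    rw [← hs]
    linear_combination (-(B : 𝓞 K) - T * z - A * z ^ 2) * hze
  have hdi : ∀ i, (p : ℤ) ∣ d i := by
    have h4 : ∃ j : ZMod p, j ∉ ({0, 1, 2, e, e + 1, e + 2} : Finset (ZMod p)) := by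
      by_contra hcon
      push Not at hcon
      have h5 : (Finset.univ : Finset (ZMod p)) ⊆ {0, 1, 2, e, e + 1, e + 2} := fun x _ => hcon x
      have h6 := Finset.card_le_card h5
      rw [Finset.card_univ, ZMod.card] at h6
      have h7 : ({0, 1, 2, e, e + 1, e + 2} : Finset (ZMod p)).card ≤ 6 := Finset.card_le_six
      omega
    obtain ⟨j, hj⟩ := h4
    simp only [mem_insert, mem_singleton, not_or] at hj
    obtain ⟨j0, j1, j2, j3, j4, j5⟩ := hj
    intro i
    have h5 := indep hζ d h3 i j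
    have h6 : d j = 0 := by
      rw [hd']
      simp [j0, j1, j2, j3, j4, j5]
    rwa [h6, sub_zero] at h5
  have hne : ∀ m : ℕ, 0 < m → m < 7 → ((m : ℕ) : ZMod p) ≠ 0 := by
    intro m h0 h8 hm
    rw [ZMod.natCast_eq_zero_iff] at hm
    have := Nat.le_of_dvd h0 hm
    omega
  have n1 : (1 : ZMod p) ≠ 0 := by simpa using hne 1 (by norm_num) (by norm_num)
  have n2 : (2 : ZMod p) ≠ 0 := by simpa using hne 2 (by norm_num) (by norm_num)
  have n3 : (3 : ZMod p) ≠ 0 := by simpa using hne 3 (by norm_num) (by norm_num)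
  have n4 : (4 : ZMod p) ≠ 0 := by simpa using hne 4 (by norm_num) (by norm_num)
  by_cases e0 : e = 0
  · have h5 := hdi 0
    rw [hd', e0] at h5
    simpa [n1.symm, n2.symm] using h5
  by_cases e1 : e = 1
  · exfalso
    apply hA
    have h5 := hdi 0
    have a1 : (0 : ZMod p) ≠ 1 + 1 := by
      intro h6; apply n2; rw [h6]; norm_num
    have a2 : (0 : ZMod p) ≠ 1 + 2 := by
      intro h6; apply n3; rw [h6]; norm_num
    rw [hd', e1] at h5
    simpa [n1.symm, n2.symm, a1, a2] using h5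
  by_cases e2 : e = 2
  · exfalso
    apply hA
    have h5 := hdi 0
    have a1 : (0 : ZMod p) ≠ 2 + 1 := by
      intro h6; apply n3; rw [h6]; norm_num
    have a2 : (0 : ZMod p) ≠ 2 + 2 := by
      intro h6; apply n4; rw [h6]; norm_num
    rw [hd', e2] at h5
    simpa [n1.symm, n2.symm, a1, a2] using h5
  exfalso
  apply hB
  have h5 := hdi e
  have a1 : e ≠ e + 1 := by
    intro h6
    exact n1 (by linear_combination -h6)
  have a2 : e ≠ e + 2 := by
    intro h6
    exact n2 (by linear_combination -h6)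
  rw [hd'] at h5
  simpa [e0, e1, e2, a1, a2] using h5

end Run7.h992
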