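import Pool.Agent.Run7.h992.FC

/-!
# The first case (2)
-/

set_option autoImplicit false
set_option linter.unusedSectionVars false

namespace Run7.h992

open NumberField Pool.Agent.Y158.KL Finset

variable {p : ℕ} [hp : Fact p.Prime] {K : Type} [Field K] [NumberField K]
  [hK : IsCyclotomicExtension {p} ℚ K] {ζ : K} (hζ : IsPrimitiveRoot ζ p)

lemma pi_not_int {w : ℤ} (hw : ¬ (p : ℤ) ∣ w) : ¬ hζ.toInteger - 1 ∣ (w : 𝓞 K) :=
  fun h => hw ((pi_dvd_int hζ).1 h)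

include hζ in
/-- the first case for linear forms -/
theorem FClin (h7 : 7 ≤ p) (hcop : (classNumber K).Coprime p) {x y m w : ℤ}
    (hxy : IsCoprime x y) (h : (x ^ p + y ^ p) * m = w ^ p)
    (hm : IsCoprime ((x : 𝓞 K) + hζ.toInteger * y) (m : 𝓞 K))
    (hw : ¬ (p : ℤ) ∣ w) (hx : ¬ (p : ℤ) ∣ x) (hy : ¬ (p : ℤ) ∣ y) : (p : ℤ) ∣ x ^ 2 - y ^ 2 := by
  classical
  have hodd : Odd p := hp.out.odd_of_ne_two (by omega)
  have hp0 : 0 < p := hp.out.pos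
  obtain ⟨z, hz⟩ : ∃ z : 𝓞 K, z = hζ.toInteger := ⟨_, rfl⟩
  obtain ⟨f, hf⟩ : ∃ f : ℕ → 𝓞 K, f = fun i => (x : 𝓞 K) + z ^ i * y := ⟨_, rfl⟩
  have hfi : ∀ i, f i = (x : 𝓞 K) + z ^ i * y := fun i => by rw [hf]
  have hprod : (∏ i ∈ range p, f i) * (m : 𝓞 K) = (w : 𝓞 K) ^ p := by
    rw [hf]
    have h1 := prod_add hodd hζ.toInteger_isPrimitiveRoot (x : 𝓞 K) (y : 𝓞 K)
    rw [← hz] at h1
    rw [h1]
    exact_mod_cast congrArg (Int.cast : ℤ → 𝓞 K) h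
  have h1mem : 1 ∈ range p := mem_range.2 (by omega)
  have hfw : f 1 * ((∏ i ∈ (range p).erase 1, f i) * (m : 𝓞 K)) = (w : 𝓞 K) ^ p := by
    rw [← hprod, ← mul_prod_erase _ _ h1mem]
    ring
  have hπ1 : IsCoprime (f 1) (hζ.toInteger - 1) := by
    have h2 : IsCoprime ((w : 𝓞 K) ^ p) (hζ.toInteger - 1) :=
      (cop_pi hζ (pi_not_int hζ hw)).symm.pow_left
    exact h2.of_isCoprime_of_dvd_left ⟨_, hfw.symm⟩
  have hxyK : IsCoprime (x : 𝓞 K) (y : 𝓞 K) := by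
    simpa using hxy.map (Int.castRingHom (𝓞 K))
  have hfy : IsCoprime (f 1) (y : 𝓞 K) := by
    rw [hfi]
    exact IsCoprime.add_mul_right_left hxyK (z ^ 1)
  have hcopf : ∀ j ∈ (range p).erase 1, IsCoprime (f 1) (f j) := by
    intro j hj
    obtain ⟨u, hu⟩ := zdiff hζ (mem_range.1 (mem_of_mem_erase hj)) (mem_range.1 h1mem)
      (ne_of_mem_erase hj)
    rw [← hz] at hu
    have h3 : f j = (z - 1) * u * y + f 1 * 1 := by
      rw [hfi, hfi, hz] at *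
      linear_combination (y : 𝓞 K) * hu
    rw [h3]
    refine IsCoprime.add_mul_left_right ?_ 1
    refine IsCoprime.mul_right (IsCoprime.mul_right ?_ ?_) hfy
    · rw [hz]
      exact hπ1
    · exact isCoprime_one_right.of_isCoprime_of_dvd_right (u.isUnit.dvd)
  obtain ⟨u, β, hu⟩ := pw hcop (IsCoprime.mul_right (IsCoprime.prod_right hcopf)
    (by rw [hfi, hz, pow_one]; exact hm)) hfw
  have hsq : ((x ^ 2 : ℤ) : 𝓞 K) + ((2 * x * y : ℤ) : 𝓞 K) * hζ.toInteger +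
      ((y ^ 2 : ℤ) : 𝓞 K) * hζ.toInteger ^ 2 = ((u ^ 2 : (𝓞 K)ˣ) : 𝓞 K) * (β ^ 2) ^ p := by
    have h4 : ((u ^ 2 : (𝓞 K)ˣ) : 𝓞 K) * (β ^ 2) ^ p = (f 1) ^ 2 := by
      rw [hu]
      push_cast
      ring
    rw [h4, hfi, hz]
    push_cast
    ring
  have hpr : Prime (p : ℤ) := Nat.prime_iff_prime_int.1 hp.out
  refine FC hζ h7 hsq ?_ (fun h4 => hx (hpr.dvd_of_dvd_pow h4)) (fun h4 => hy (hpr.dvd_of_dvd_pow h4))
  intro h4
  have h5 : x ^ 2 + 2 * x * y + y ^ 2 = (x + y) ^ 2 := by ring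
  rw [h5] at h4
  have h6 := hpr.dvd_of_dvd_pow h4
  apply hw
  apply hpr.dvd_of_dvd_pow (n := p)
  rw [← h]
  exact (h6.trans (hodd.add_dvd_pow_add_pow x y)).mul_right m

include hζ in
/-- the first case for quadratic forms -/
theorem FCquad (h7 : 7 ≤ p) (hcop : (classNumber K).Coprime p) {A T B D : ℤ}
    (h : ∏ i ∈ range p, ((A : 𝓞 K) + T * hζ.toInteger ^ i + B * (hζ.toInteger ^ i) ^ 2) =
      (D : 𝓞 K) ^ p)
    (hc : ∀ m : ℕ, IsCoprime (D : 𝓞 K) (B - A * hζ.toInteger ^ m))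
    (hD : ¬ (p : ℤ) ∣ D) (hA : ¬ (p : ℤ) ∣ A) (hB : ¬ (p : ℤ) ∣ B) : (p : ℤ) ∣ A - B := by
  classical
  have hodd : Odd p := hp.out.odd_of_ne_two (by omega)
  have hp0 : 0 < p := hp.out.pos
  obtain ⟨z, hz⟩ : ∃ z : 𝓞 K, z = hζ.toInteger := ⟨_, rfl⟩
  obtain ⟨f, hf⟩ : ∃ f : ℕ → 𝓞 K, f = fun i => (A : 𝓞 K) + T * z ^ i + B * (z ^ i) ^ 2 := ⟨_, rfl⟩
  have hfi : ∀ i, f i = (A : 𝓞 K) + T * z ^ i + B * (z ^ i) ^ 2 := fun i => by rw [hf]
  have hprod : (∏ i ∈ range p, f i) = (D : 𝓞 K) ^ p := by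
    rw [hf, hz]
    exact h
  have h0mem : 0 ∈ range p := mem_range.2 hp0
  have h1mem : 1 ∈ range p := mem_range.2 (by omega)
  have hfD : f 1 * (∏ i ∈ (range p).erase 1, f i) = (D : 𝓞 K) ^ p := by
    rw [← hprod, ← mul_prod_erase _ _ h1mem]
  have hπ1 : IsCoprime ((D : 𝓞 K) ^ p) (hζ.toInteger - 1) :=
    (cop_pi hζ (pi_not_int hζ hD)).symm.pow_left
  have hcopf : ∀ j ∈ (range p).erase 1, IsCoprime (f 1) (f j) := by
    intro j hj
    have hj1 := ne_of_mem_erase hj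
    have hjp := mem_range.1 (mem_of_mem_erase hj)
    -- z^j f 1 - z f j = (z^j - z) (A - B z^(j+1))
    obtain ⟨u, hu⟩ := zdiff hζ hjp (mem_range.1 h1mem) hj1
    have hzp : z ^ p = 1 := by rw [hz]; exact zpow_p hζ
    -- the element `(z ^ j - z) (B - A z ^ (2 p - j - 1))` is a combination
    have h3 := hc (2 * p - j - 1)
    have h4 : IsCoprime ((D : 𝓞 K) ^ p) ((hζ.toInteger - 1) * u * (B - A * hζ.toInteger ^ (2 * p - j - 1))) := by
      refine IsCoprime.mul_right (IsCoprime.mul_right hπ1 ?_) h3.pow_left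
      exact isCoprime_one_right.of_isCoprime_of_dvd_right (u.isUnit.dvd)
    rw [← hz] at h4 hu
    rw [← hu] at h4
    obtain ⟨s, t, hst⟩ := h4
    -- D^p = f 1 * R
    have hzz : z ^ (2 * p - j - 1) * z ^ (j + 1) = 1 := by
      rw [← pow_add, show 2 * p - j - 1 + (j + 1) = 2 * p by omega, mul_comm 2 p, pow_mul, hzp, one_pow]
    have e1 : (z ^ j - z ^ 1) * (B - A * z ^ (2 * p - j - 1)) =
        z ^ (2 * p - j - 1) * (z * f j - z ^ j * f 1) := by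
      rw [hfi, hfi]
      linear_combination (-(B : 𝓞 K) * (z ^ j - z ^ 1)) * hzz
    rw [e1, ← hfD] at hst
    refine ⟨s * (∏ i ∈ (range p).erase 1, f i) - t * z ^ (2 * p - j - 1) * z ^ j,
      t * z ^ (2 * p - j - 1) * z, ?_⟩
    linear_combination hst
  obtain ⟨u, β, hu⟩ := pw hcop (IsCoprime.prod_right hcopf) hfD
  have hF : (A : 𝓞 K) + T * hζ.toInteger + B * hζ.toInteger ^ 2 = u * β ^ p := by
    rw [← hu, hfi, hz]
    ring
  have hpr : Prime (p : ℤ) := Nat.prime_iff_prime_int.1 hp.out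
  refine FC hζ h7 hF ?_ hA hB
  intro h4
  have h5 : f 0 = ((A + T + B : ℤ) : 𝓞 K) := by
    rw [hfi]
    push_cast
    ring
  have h6 : hζ.toInteger - 1 ∣ (D : 𝓞 K) ^ p := by
    rw [← hprod]
    refine Dvd.dvd.trans ?_ (dvd_prod_of_mem f h0mem)
    rw [h5]
    exact (pi_dvd_int hζ).2 h4
  exact pi_not_int hζ hD ((pi_prime hζ).dvd_of_dvd_pow h6)

end Run7.h992
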