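import Pool.Agent.Run7.h992.Case3

/-!
# No solutions for regular primes
-/

set_option autoImplicit false
set_option linter.unusedSectionVars false

namespace Run7.h992

open NumberField Pool.Agent.Y158.KL Finset

variable {p : ℕ} [hp : Fact p.Prime] {K : Type} [Field K] [NumberField K]
  [hK : IsCyclotomicExtension {p} ℚ K] {ζ : K} (hζ : IsPrimitiveRoot ζ p)

lemma castK {x y : ℤ} (h : IsCoprime x y) : IsCoprime (x : 𝓞 K) (y : 𝓞 K) := by
  simpa using h.map (Int.castRingHom (𝓞 K))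

include hζ in
theorem noSol (h11 : 11 ≤ p) (hcop : (classNumber K).Coprime p)
    (hKL : ∀ (u : (𝓞 K)ˣ) (n : ℤ), (p : 𝓞 K) ∣ (u : 𝓞 K) - n → ∃ η : (𝓞 K)ˣ, u = η ^ p)
    {A B C D : ℤ} (h : Sol p A B C D) : False := by
  have hodd : Odd p := hp.out.odd_of_ne_two (by omega)
  have hp0 : 0 < p := hp.out.pos
  have hpr : Prime (p : ℤ) := Nat.prime_iff_prime_int.1 hp.out
  obtain ⟨hA0, hB0, hC0, hD0, hAB, hE1, hE2⟩ := h
  obtain ⟨k, hk⟩ := hodd
  have hk' : (p - 1) / 2 = k := by omega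
  have hodd : Odd p := ⟨k, hk⟩
  obtain ⟨a, ha⟩ : ∃ a : ℤ, a = A ^ p := ⟨_, rfl⟩
  obtain ⟨b, hb⟩ : ∃ b : ℤ, b = 3 ^ ((p - 1) / 2) * B ^ p := ⟨_, rfl⟩
  rw [← ha, ← hb] at hE1 hE2
  have hC : a - b = C ^ p := by linarith
  -- coprimality
  have hbk : b = 3 ^ k * B ^ p := by rw [hb, hk']
  have hab : IsCoprime a b := by
    have h1 : IsCoprime (A ^ p) ((3 * B) ^ p) := hAB.pow
    rw [← ha] at h1
    refine h1.of_isCoprime_of_dvd_right ?_
    rw [hbk, mul_pow]
    exact mul_dvd_mul (pow_dvd_pow 3 (by omega)) dvd_rfl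
  have h3b : (3 : ℤ) ∣ b := by
    rw [hbk]
    exact Dvd.dvd.mul_right (dvd_pow_self 3 (by omega)) _
  have hBb : B ∣ b := by
    rw [hbk]
    exact Dvd.dvd.mul_left (dvd_pow_self B hp0.ne') _
  have hDb : IsCoprime D b := by
    have h1 : IsCoprime (a ^ 2 + b * (a + b)) b := IsCoprime.add_mul_left_left hab.pow_left _
    have h2 : a ^ 2 + b * (a + b) = D ^ p := by rw [← hE2]; ring
    rw [h2] at h1
    exact (IsCoprime.pow_left_iff hp0).1 h1
  have hDa : IsCoprime D a := by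
    have h1 : IsCoprime (b ^ 2 + a * (a + b)) a := IsCoprime.add_mul_left_left hab.symm.pow_left _
    have h2 : b ^ 2 + a * (a + b) = D ^ p := by rw [← hE2]; ring
    rw [h2] at h1
    exact (IsCoprime.pow_left_iff hp0).1 h1
  have hD3 : IsCoprime D 3 := hDb.of_isCoprime_of_dvd_right h3b
  have hDB : IsCoprime D B := hDb.of_isCoprime_of_dvd_right hBb
  have hcb : IsCoprime (a - b) b := by
    have h1 := hab.add_mul_left_left (-1)
    rwa [mul_neg_one, ← sub_eq_add_neg] at h1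
  have hca : IsCoprime (a - b) a := by
    have h1 := (hab.symm.neg_left).add_mul_left_left 1
    rwa [mul_one, neg_add_eq_sub] at h1
  have hc3 : IsCoprime (a - b) 3 := hcb.of_isCoprime_of_dvd_right h3b
  have hC3 : IsCoprime C 3 := by
    rw [hC] at hc3
    exact (IsCoprime.pow_left_iff hp0).1 hc3
  have hCD : IsCoprime C D := by
    have h1 : IsCoprime (a - b) (3 * (a * b) + (a - b) * (a - b)) :=
      IsCoprime.add_mul_left_right (hc3.mul_right (hca.mul_right hcb)) _
    have h2 : 3 * (a * b) + (a - b) * (a - b) = D ^ p := by rw [← hE2]; ring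
    rw [h2, hC] at h1
    exact (IsCoprime.pow_iff hp0 hp0).1 h1
  have hAC : IsCoprime A C := by
    rw [hC, ha] at hca
    exact ((IsCoprime.pow_iff hp0 hp0).1 hca).symm
  have hnot : ∀ {u v : ℤ}, IsCoprime u v → (p : ℤ) ∣ u → ¬ (p : ℤ) ∣ v := by
    intro u v huv h1 h2
    exact hpr.not_isUnit (huv.isUnit_of_dvd' h1 h2)
  have hp3 : ¬ (p : ℤ) ∣ 3 := by
    intro h1
    have := Int.le_of_dvd (by norm_num) h1
    omega
  have hcop6 : p.Coprime 6 := by
    rw [hp.out.coprime_iff_not_dvd]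
    intro h1
    have := Nat.le_of_dvd (by norm_num) h1
    omega
  obtain ⟨g1, g2, hg2b, hgD, hE⟩ := eis hcop6 hab hD3 hE2
  obtain ⟨B', t, hB'2, hR1, hR2, hS1, hS2, e, he⟩ := prods hζ (by omega) hC hE2 hb hgD hE
  have hDg2 : IsCoprime D g2 := hDb.of_isCoprime_of_dvd_right hg2b
  have htD : IsCoprime t D := by
    have h1 : IsCoprime (-C ^ p) D := (hCD.pow_left).neg_left
    have h2 := h1.add_mul_left_left e
    rw [← he] at h2
    exact (IsCoprime.pow_left_iff hp0).1 h2
  -- second case, `p ∣ B`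
  by_cases hpB : (p : ℤ) ∣ B
  · refine thSint hζ (by omega) hcop hKL (T := -3 * g2 ^ 2) (N := -D) (W := -3 * B ^ 2)
      ?_ ?_ ?_ ?_ hS1
    · refine IsCoprime.neg_right ?_
      refine IsCoprime.mul_left ?_ hDg2.symm.pow_left
      exact hD3.symm.neg_left
    · intro h1
      exact hnot hDB ((dvd_neg).1 h1) hpB
    · exact Dvd.dvd.mul_left (dvd_pow hpB two_ne_zero) _
    · exact mul_ne_zero (by norm_num) (pow_ne_zero 2 hB0)
  by_cases hpC : (p : ℤ) ∣ C
  · refine thSint hζ (by omega) hcop hKL (T := t ^ 2) (N := D) (W := C ^ 2)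
      htD.pow_left (hnot hCD hpC) (dvd_pow hpC two_ne_zero) (pow_ne_zero 2 hC0) hS2
  -- congruences modulo `p`
  have hz : ∀ {x : ℤ}, (p : ℤ) ∣ x ↔ (x : ZMod p) = 0 := by
    intro x
    rw [ZMod.intCast_zmod_eq_zero_iff_dvd]
  have hn3 : (3 : ZMod p) ≠ 0 := by
    intro h1
    apply hp3
    rw [hz]
    exact_mod_cast h1
  have hn : ∀ n : ℕ, 0 < n → n < 11 → (n : ZMod p) ≠ 0 := by
    intro n h1 h2 h3
    rw [ZMod.natCast_eq_zero_iff] at h3
    have := Nat.le_of_dvd h1 h3
    omega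
  have hn2 : (2 : ZMod p) ≠ 0 := by simpa using hn 2 (by norm_num) (by norm_num)
  have hn7 : (7 : ZMod p) ≠ 0 := by simpa using hn 7 (by norm_num) (by norm_num)
  have zA : (a : ZMod p) = A := by rw [ha]; push_cast; rw [ZMod.pow_card]
  have zC : (a : ZMod p) - b = C := by
    have := congrArg (Int.cast : ℤ → ZMod p) hC
    push_cast at this
    rwa [ZMod.pow_card] at this
  have zD : (a : ZMod p) ^ 2 + a * b + b ^ 2 = D := by
    have := congrArg (Int.cast : ℤ → ZMod p) hE2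
    push_cast at this
    rwa [ZMod.pow_card] at this
  have zb : (b : ZMod p) = 3 ^ k * B := by rw [hbk]; push_cast; rw [ZMod.pow_card]
  have z3 : ((3 : ZMod p) ^ k) ^ 2 = 1 := by
    rw [← pow_mul, show k * 2 = p - 1 by omega]
    exact ZMod.pow_card_sub_one_eq_one hn3
  have zb2 : (b : ZMod p) ^ 2 = (B : ZMod p) ^ 2 := by
    rw [zb, mul_pow, z3, one_mul]
  have zB0 : (B : ZMod p) ≠ 0 := fun h1 => hpB (hz.2 h1)
  have zb0 : (b : ZMod p) ≠ 0 := by
    intro h1
    rw [h1, zero_pow two_ne_zero] at zb2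
    exact zB0 (pow_eq_zero_iff two_ne_zero |>.1 zb2.symm)
  by_cases hpA : (p : ℤ) ∣ A
  · have ha0 : (a : ZMod p) = 0 := by rw [zA]; exact hz.1 hpA
    have hpD : ¬ (p : ℤ) ∣ D := by
      intro h1
      apply hnot hDa h1
      rw [hz]
      exact ha0
    have h1 : (p : ℤ) ∣ D - 3 * B ^ 2 := by
      refine FCquad hζ (by omega) hcop hR1 ?_ hpD hpD ?_
      · intro m
        have h2 : IsCoprime (D : 𝓞 K) ((3 * B ^ 2 : ℤ) : 𝓞 K) :=
          castK (hD3.mul_right hDB.pow_right)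
        have h3 := h2.add_mul_left_right (-hζ.toInteger ^ m)
        rwa [mul_neg, ← sub_eq_add_neg] at h3
      · intro h2
        rcases hpr.dvd_or_dvd h2 with h3 | h3
        · exact hp3 h3
        · exact hpB (hpr.dvd_of_dvd_pow h3)
    rw [hz] at h1
    push_cast at h1
    rw [← zD, ← zb2, ha0] at h1
    have h2 : (2 : ZMod p) * (b * b) = 0 := by linear_combination -h1
    exact mul_ne_zero hn2 (mul_ne_zero zb0 zb0) h2
  have zA0 : (a : ZMod p) ≠ 0 := by
    rw [zA]
    exact fun h1 => hpA (hz.2 h1)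
  by_cases hpD : (p : ℤ) ∣ D
  · -- `A ^ 2 = C ^ 2`
    have h3AC : (3 : ℤ) ∣ A - C := by
      have hcube : ∀ x : ℤ, (3 : ℤ) ∣ x ^ p - x := by
        intro x
        have : Fact (Nat.Prime 3) := ⟨Nat.prime_three⟩
        have h1 : (3 : ℤ) ∣ x ^ 3 - x := by
          have h2 : ((x ^ 3 - x : ℤ) : ZMod 3) = 0 := by
            push_cast
            rw [ZMod.pow_card, sub_self]
          exact_mod_cast (ZMod.intCast_zmod_eq_zero_iff_dvd _ 3).1 h2
        have h2 : x ^ 2 - 1 ∣ (x ^ 2) ^ k - 1 := by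
          have := sub_dvd_pow_sub_pow (x ^ 2) 1 k
          rwa [one_pow] at this
        obtain ⟨y, hy⟩ := h2
        have h3 : x ^ p - x = (x ^ 3 - x) * y := by
          rw [hk]
          linear_combination x * hy
        rw [h3]
        exact h1.mul_right _
      have h1 : A - C = b - (A ^ p - A) + (C ^ p - C) := by
        rw [← hC, ← ha]
        ring
      rw [h1]
      exact dvd_add (dvd_sub h3b (hcube A)) (hcube C)
    obtain ⟨f, hf⟩ := h3AC
    have h1 : (p : ℤ) ∣ A ^ 2 - (-C) ^ 2 := by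
      refine FClin hζ (by omega) hcop (m := 3 ^ (p - k)) (w := 3 * B) hAC.neg_right ?_ ?_ ?_ hpA
        (fun h2 => hpC ((dvd_neg).1 h2))
      · rw [hodd.neg_pow, ← ha, ← hC]
        have h2 : (3 : ℤ) ^ p = 3 ^ k * 3 ^ (p - k) := by rw [← pow_add]; congr 1; omega
        rw [mul_pow, h2, show a + -(a - b) = b by ring, hbk]
        ring
      · push_cast
        refine IsCoprime.pow_right ?_
        have h2 : (A : 𝓞 K) + hζ.toInteger * -(C : 𝓞 K) = (1 - hζ.toInteger) * C + 3 * f := by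
          have h3 : (A : 𝓞 K) - C = 3 * f := by exact_mod_cast congrArg (Int.cast : ℤ → 𝓞 K) hf
          linear_combination h3
        rw [h2]
        refine IsCoprime.add_mul_left_left ?_ _
        refine IsCoprime.mul_left ?_ ?_
        · have h4 := cop_pi hζ (x := ((3 : ℤ) : 𝓞 K)) (pi_not_int hζ hp3)
          have h5 := h4.neg_left
          rw [neg_sub] at h5
          exact_mod_cast h5
        · exact_mod_cast castK (K := K) hC3
      · intro h2
        rcases hpr.dvd_or_dvd h2 with h3 | h3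
        · exact hp3 h3
        · exact hpB h3
    rw [hz] at h1
    push_cast at h1
    rw [← zC, ← zA] at h1
    have hD0' : (D : ZMod p) = 0 := hz.1 hpD
    rw [hD0'] at zD
    have h2 : (b : ZMod p) * (b - 2 * a) = 0 := by linear_combination -h1
    have h3 := (mul_eq_zero.1 h2).resolve_left zb0
    have h4 : (7 : ZMod p) * (a * a) = 0 := by
      linear_combination zD - (b + 3 * (a : ZMod p)) * h3
    exact mul_ne_zero hn7 (mul_ne_zero zA0 zA0) h4
  · have h1 : (p : ℤ) ∣ C ^ 2 - D := by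
      refine FCquad hζ (by omega) hcop hR2 ?_ hpD (fun h2 => hpC (hpr.dvd_of_dvd_pow h2)) hpD
      intro m
      have h2 : IsCoprime (D : 𝓞 K) ((C ^ 2 : ℤ) : 𝓞 K) := castK hCD.symm.pow_right
      have hu : IsUnit (hζ.toInteger ^ m) :=
        (hζ.toInteger_isPrimitiveRoot.isUnit hp.out.ne_zero).pow m
      have h3 : IsCoprime (D : 𝓞 K) (-(((C ^ 2 : ℤ) : 𝓞 K) * hζ.toInteger ^ m)) :=
        ((isCoprime_mul_unit_right_right hu _ _).2 h2).neg_right
      have h4 := h3.add_mul_left_right 1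
      rwa [mul_one, neg_add_eq_sub] at h4
    rw [hz] at h1
    push_cast at h1
    rw [← zD, ← zC] at h1
    have h2 : (3 : ZMod p) * (a * b) = 0 := by linear_combination -h1
    exact mul_ne_zero hn3 (mul_ne_zero zA0 zb0) h2

end Run7.h992
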