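import Pool.Agent.Run7.h992.Quad

/-!
# Solutions of exponent `3 m` in quadratic fields
-/

set_option autoImplicit false
set_option linter.unusedSectionVars false

namespace Run7.h992

open Module

variable {K : Type} [Field K] [NumberField K]

/-- `x ^ m` and `y ^ m` are conjugate -/
theorem core (hK : finrank ℚ K = 2) {m : ℕ} (hm : m.Coprime 6) {x y : K} (hx : x ≠ 0)
    (hy : y ≠ 0) (h : (x ^ m) ^ 3 + (y ^ m) ^ 3 + 1 = 0) {r : ℚ} (hr : x ^ m + y ^ m = r) :
    ∃ s : ℚ, s ≠ 0 ∧ r ≠ 0 ∧ 3 * r * s ^ m = r ^ 3 + 1 := by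
  obtain ⟨P, hP⟩ : ∃ P : K, P = x ^ m := ⟨_, rfl⟩
  obtain ⟨Q, hQ⟩ : ∃ Q : K, Q = y ^ m := ⟨_, rfl⟩
  have hP0 : P ≠ 0 := by rw [hP]; exact pow_ne_zero _ hx
  have hQ0 : Q ≠ 0 := by rw [hQ]; exact pow_ne_zero _ hy
  rw [← hP, ← hQ] at h hr
  have h1 : 3 * (r : K) * (P * Q) = r ^ 3 + 1 := by
    rw [← hr]
    linear_combination (-1 : K) * h
  have hr0 : r ≠ 0 := by
    rintro rfl
    simp at h1
  have hr0' : (r : K) ≠ 0 := by exact_mod_cast hr0
  have hPQ : P * Q = ((r ^ 3 + 1) / (3 * r) : ℚ) := by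
    push_cast
    field_simp
    linear_combination h1
  have hirr : ¬ Rt P := by
    rintro ⟨q, hq⟩
    have hQq : Q = ((r - q : ℚ) : K) := by
      push_cast
      rw [← hq, ← hr]
      ring
    rw [hq, hQq] at h
    have h2 : q ^ 3 + (r - q) ^ 3 + 1 = 0 := by exact_mod_cast h
    rcases flt3q h2 with h3 | h3
    · exact hP0 (by rw [hq, h3]; simp)
    · exact hQ0 (by rw [hQq, h3]; simp)
  have hquad : Algebra.IsQuadraticExtension ℚ K := { finrank_eq_two' := hK }
  have hgal : IsGalois ℚ K := inferInstance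
  obtain ⟨σ, hσ⟩ : ∃ σ : K ≃ₐ[ℚ] K, σ P ≠ P := by
    by_contra hcon
    push Not at hcon
    have h2 : P ∈ (⊥ : IntermediateField ℚ K) := (IsGalois.mem_bot_iff_fixed P).2 hcon
    rw [IntermediateField.mem_bot] at h2
    obtain ⟨q, hq⟩ := h2
    exact hirr ⟨q, by rw [← hq]; rfl⟩
  have hσq : ∀ q : ℚ, σ (q : K) = q := fun q => map_ratCast σ q
  have hσP : σ P = Q := by
    have h2 : (σ P - P) * (σ P - Q) = 0 := by
      have h3 : P ^ 2 - r * P + ((r ^ 3 + 1) / (3 * r) : ℚ) = 0 := by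
        rw [← hPQ, ← hr]
        ring
      have h4 := congrArg σ h3
      rw [map_zero, map_add, map_sub, map_mul, map_pow, hσq, hσq, ← hPQ, ← hr] at h4
      linear_combination h4
    rcases mul_eq_zero.1 h2 with h3 | h3
    · exact absurd (sub_eq_zero.1 h3) hσ
    · exact sub_eq_zero.1 h3
  have hσQ : σ Q = P := by
    have h2 : Q = r - P := by rw [← hr]; ring
    rw [h2, map_sub, hσq, hσP, ← hr]
    ring
  have hσx : σ x = y := by
    have h2 : (σ x / y) ^ m = 1 := by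
      rw [div_pow, ← map_pow, ← hP, hσP, hQ, div_self (pow_ne_zero _ hy)]
    have h3 := no_root hK hm h2
    rwa [div_eq_one_iff_eq hy] at h3
  have hσy : σ y = x := by
    have h2 : (σ y / x) ^ m = 1 := by
      rw [div_pow, ← map_pow, ← hQ, hσQ, hP, div_self (pow_ne_zero _ hx)]
    have h3 := no_root hK hm h2
    rwa [div_eq_one_iff_eq hx] at h3
  -- `x y` is rational
  obtain ⟨a, b, hxy⟩ := dep hK hirr (x * y)
  have hb : b = b := rfl
  have h5 : σ (x * y) = x * y := by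
    rw [map_mul, hσx, hσy, mul_comm]
  have ha : a = 0 := by
    rw [hxy, map_add, map_mul, hσq, hσq, hσP] at h5
    by_contra ha
    have ha' : (a : K) ≠ 0 := by exact_mod_cast ha
    apply hσ
    rw [hσP]
    apply mul_left_cancel₀ ha'
    linear_combination h5
  have hs : x * y = (b : K) := by rw [hxy, ha]; simp
  have hb0 : b ≠ 0 := by
    rintro rfl
    rw [Rat.cast_zero] at hs
    exact mul_ne_zero hx hy hs
  refine ⟨b, hb0, hr0, ?_⟩
  have h6 : 3 * (r : K) * (b : K) ^ m = r ^ 3 + 1 := by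
    rw [← h1, ← hs, mul_pow, hP, hQ]
  exact_mod_cast h6

theorem red (hK : finrank ℚ K = 2) {m : ℕ} (hm : m.Coprime 6) {x y z : K} (hx : x ≠ 0)
    (hy : y ≠ 0) (hz : z ≠ 0) (h : x ^ (3 * m) + y ^ (3 * m) = z ^ (3 * m)) :
    ∃ r s : ℚ, s ≠ 0 ∧ r ≠ 0 ∧ 3 * r * s ^ m = r ^ 3 + 1 := by
  have hodd : Odd m := by
    rw [← Nat.not_even_iff_odd]
    intro he
    have := Nat.dvd_gcd he.two_dvd (show 2 ∣ 6 by norm_num)
    rw [hm] at this
    omega
  obtain ⟨w, hw⟩ : ∃ w : K, w = -z := ⟨_, rfl⟩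
  have hw0 : w ≠ 0 := by rw [hw]; exact neg_ne_zero.2 hz
  have h1 : (x ^ m) ^ 3 + (y ^ m) ^ 3 + (w ^ m) ^ 3 = 0 := by
    rw [hw, hodd.neg_pow, ← pow_mul, ← pow_mul, mul_comm m 3, h]
    ring
  have hwm : w ^ m ≠ 0 := pow_ne_zero _ hw0
  have hxm : x ^ m ≠ 0 := pow_ne_zero _ hx
  have hym : y ^ m ≠ 0 := pow_ne_zero _ hy
  have h2 : (x ^ m / w ^ m) ^ 3 + (y ^ m / w ^ m) ^ 3 + 1 = 0 := by
    field_simp
    linear_combination h1
  obtain ⟨r, hr | hr | hr⟩ := cubic hK (div_ne_zero hxm hwm) (div_ne_zero hym hwm) h2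
  · obtain ⟨s, hs⟩ := core hK hm (x := x / w) (y := y / w) (div_ne_zero hx hw0) (div_ne_zero hy hw0)
      (by rw [div_pow x w m, div_pow y w m]; exact h2) (r := r)
      (by rw [div_pow x w m, div_pow y w m]; exact hr)
    exact ⟨r, s, hs⟩
  · obtain ⟨s, hs⟩ := core hK hm (x := y / x) (y := w / x) (div_ne_zero hy hx) (div_ne_zero hw0 hx)
      (by
        rw [div_pow y x m, div_pow w x m]
        field_simp
        linear_combination h1) (r := r) (by
        rw [div_pow y x m, div_pow w x m]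
        field_simp
        field_simp at hr
        linear_combination hr)
    exact ⟨r, s, hs⟩
  · obtain ⟨s, hs⟩ := core hK hm (x := x / y) (y := w / y) (div_ne_zero hx hy) (div_ne_zero hw0 hy)
      (by
        rw [div_pow x y m, div_pow w y m]
        field_simp
        linear_combination h1) (r := r) (by
        rw [div_pow x y m, div_pow w y m]
        field_simp
        field_simp at hr
        linear_combination hr)
    exact ⟨r, s, hs⟩

end Run7.h992
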