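import Pool.Agent.Y158.KL.Hil7
import Pool.Agent.Run7.h992.NoSol
import Pool.Agent.Run7.h992.Quad2

/-!
# Exponents divisible by three over quadratic fields
-/

set_option autoImplicit false
set_option linter.unusedSectionVars false

namespace Run7.h992

open NumberField Module Pool.Agent.Y158.KL

/-- the reduction -/
theorem reduction {K : Type} [Field K] [NumberField K] (hK : finrank ℚ K = 2) {m : ℕ}
    (hm : m.Coprime 6) (hm5 : 5 ≤ m) {x y z : K} (hx : x ≠ 0) (hy : y ≠ 0) (hz : z ≠ 0)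
    (h : x ^ (3 * m) + y ^ (3 * m) = z ^ (3 * m)) :
    (∃ A B C : ℤ, A ≠ 0 ∧ B ≠ 0 ∧ C ≠ 0 ∧ A ^ m + B ^ m = C ^ m) ∨
      ∃ A B C D : ℤ, Sol m A B C D := by
  have hodd : Odd m := by
    rw [← Nat.not_even_iff_odd]
    intro he
    have := Nat.dvd_gcd he.two_dvd (show 2 ∣ 6 by norm_num)
    rw [hm] at this
    omega
  obtain ⟨r, s, hs, hr, hrs⟩ := red hK hm hx hy hz h
  exact dio hodd (by omega) hs hr hrs

/-- facts for regular primes -/
theorem regular {p : ℕ} (hp : p.Prime) (h11 : 11 ≤ p)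
    (hreg : ¬ p ∣ classNumber (CyclotomicField p ℚ)) :
    FermatLastTheoremWith ℤ p ∧ ∀ A B C D : ℤ, ¬ Sol p A B C D := by
  have hpF : Fact p.Prime := ⟨hp⟩
  have hne : NeZero p := ⟨hp.ne_zero⟩
  have hcyc : IsCyclotomicExtension {p} ℚ (CyclotomicField p ℚ) :=
    CyclotomicField.isCyclotomicExtension p ℚ
  have hζ : IsPrimitiveRoot (IsCyclotomicExtension.zeta p ℚ (CyclotomicField p ℚ)) p :=
    IsCyclotomicExtension.zeta_spec p ℚ (CyclotomicField p ℚ)
  have hcop : (classNumber (CyclotomicField p ℚ)).Coprime p :=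
    ((hp.coprime_iff_not_dvd).2 hreg).symm
  have hKL : KLem p (CyclotomicField p ℚ) := kummer_lemma hζ (by omega) hcop
  exact ⟨fltReg hζ (by omega) hcop hKL, fun A B C D h => noSol hζ h11 hcop hKL h⟩

theorem final {K : Type} [Field K] [NumberField K] (hK : finrank ℚ K = 2) {p n : ℕ}
    (hp : p.Prime) (h11 : 11 ≤ p) (hreg : ¬ p ∣ classNumber (CyclotomicField p ℚ))
    (hn : 3 * p ∣ n) {x y z : K} (h : x ^ n + y ^ n = z ^ n) : x = 0 ∨ y = 0 ∨ z = 0 := by
  by_contra hcon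
  push Not at hcon
  obtain ⟨hx, hy, hz⟩ := hcon
  obtain ⟨h1, h2⟩ := regular hp h11 hreg
  obtain ⟨c, rfl⟩ := hn
  have hcop : p.Coprime 6 := by
    rw [hp.coprime_iff_not_dvd]
    intro h3
    have := Nat.le_of_dvd (by norm_num) h3
    omega
  have h3 : (x ^ c) ^ (3 * p) + (y ^ c) ^ (3 * p) = (z ^ c) ^ (3 * p) := by
    rw [← pow_mul, ← pow_mul, ← pow_mul, mul_comm c (3 * p), h]
  rcases reduction hK hcop (by omega) (pow_ne_zero c hx) (pow_ne_zero c hy) (pow_ne_zero c hz) h3 with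
    ⟨A, B, C, hA, hB, hC, hABC⟩ | ⟨A, B, C, D, hS⟩
  · exact h1 A B C hA hB hC hABC
  · exact h2 A B C D hS

end Run7.h992
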