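import Mathlib

/-!
# Quadratic points on the Fermat cubic
-/

set_option autoImplicit false
set_option linter.unusedSectionVars false

namespace Run7.h992

open Module

theorem flt3q {x y : ℚ} (h : x ^ 3 + y ^ 3 + 1 = 0) : x = 0 ∨ y = 0 := by
  by_contra hcon
  push Not at hcon
  have h3 : FermatLastTheoremWith ℚ 3 := fermatLastTheoremFor_iff_rat.1 fermatLastTheoremThree
  refine h3 x y (-1) hcon.1 hcon.2 (by norm_num) ?_
  linear_combination h

variable {K : Type} [Field K] [NumberField K]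

/-- being rational -/
def Rt (x : K) : Prop := ∃ q : ℚ, x = (q : K)

lemma indepX {X : K} (hX : ¬ Rt X) {a b : ℚ} (h : (a : K) + b * X = 0) : a = 0 ∧ b = 0 := by
  by_cases hb : b = 0
  · subst hb
    refine ⟨?_, rfl⟩
    have h1 : (a : K) = 0 := by simpa using h
    exact_mod_cast h1
  · exfalso
    apply hX
    refine ⟨-a / b, ?_⟩
    have hb' : (b : K) ≠ 0 := by exact_mod_cast hb
    push_cast
    rw [eq_div_iff hb']
    linear_combination h

lemma dep (hK : finrank ℚ K = 2) {X : K} (hX : ¬ Rt X) (Y : K) :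
    ∃ m c : ℚ, Y = m * X + c := by
  have h1 : ¬ LinearIndependent ℚ ![1, X, Y] := by
    intro hli
    have := hli.fintype_card_le_finrank
    rw [hK, Fintype.card_fin] at this
    omega
  rw [Fintype.not_linearIndependent_iff] at h1
  obtain ⟨g, hg, i, hi⟩ := h1
  rw [Fin.sum_univ_three] at hg
  simp only [Matrix.cons_val_zero, Matrix.cons_val_one, Matrix.cons_val] at hg
  rw [Rat.smul_def, Rat.smul_def, Rat.smul_def, mul_one] at hg
  have h2 : g 2 ≠ 0 := by
    intro h2
    rw [h2, Rat.cast_zero, zero_mul, add_zero] at hg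
    obtain ⟨h3, h4⟩ := indepX hX hg
    fin_cases i
    · exact hi h3
    · exact hi h4
    · exact hi h2
  have h2' : (g 2 : K) ≠ 0 := by exact_mod_cast h2
  refine ⟨-g 1 / g 2, -g 0 / g 2, ?_⟩
  push_cast
  field_simp
  linear_combination hg

/-- quadratic points on the Fermat cubic: irrational first coordinate -/
lemma cubic_irr (hK : finrank ℚ K = 2) {X Y : K} (hX : ¬ Rt X) (hY0 : Y ≠ 0)
    (h : X ^ 3 + Y ^ 3 + 1 = 0) :
    ∃ r : ℚ, X + Y = r ∨ Y + 1 = r * X ∨ X + 1 = r * Y := by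
  obtain ⟨m, c, hY⟩ := dep hK hX Y
  obtain ⟨s, n, hX2⟩ := dep hK hX (X ^ 2)
  -- X² = s X + n
  have hX3 : X ^ 3 = (s ^ 2 + n) * X + s * n := by
    have : X ^ 3 = X * X ^ 2 := by ring
    rw [this, hX2]
    linear_combination (s : K) * hX2
  have h1 : (((1 + m ^ 3) * (s * n) + 3 * m ^ 2 * c * n + c ^ 3 + 1 : ℚ) : K) +
      (((1 + m ^ 3) * (s ^ 2 + n) + 3 * m ^ 2 * c * s + 3 * m * c ^ 2 : ℚ) : K) * X = 0 := by
    rw [hY] at h
    push_cast
    linear_combination h - (1 + (m : K) ^ 3) * hX3 - 3 * (m : K) ^ 2 * c * hX2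
  obtain ⟨e0, e1⟩ := indepX hX h1
  by_cases hl : 1 + m ^ 3 = 0
  · have hm : m = -1 := by
      have h2 : (m + 1) * ((m - 1 / 2) ^ 2 + 3 / 4) = 0 := by linear_combination hl
      rcases mul_eq_zero.1 h2 with h3 | h3
      · linarith
      · have := sq_nonneg (m - 1 / 2)
        linarith
    refine ⟨c, Or.inl ?_⟩
    rw [hY, hm]
    push_cast
    ring
  · -- the third root
    obtain ⟨k, hk⟩ : ∃ k : ℚ, k = 3 * m ^ 2 * c + s * (1 + m ^ 3) := ⟨_, rfl⟩
    obtain ⟨t, ht⟩ : ∃ t : ℚ, t = -k / (1 + m ^ 3) := ⟨_, rfl⟩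
    have htk : (1 + m ^ 3) * t = -k := by
      rw [ht]
      field_simp
    have h2 : t ^ 3 + (m * t + c) ^ 3 + 1 = 0 := by
      -- g(T) = (T² - s T - n) ((1+m³) T + k)
      have h3 : t ^ 3 + (m * t + c) ^ 3 + 1 = (t ^ 2 - s * t - n) * ((1 + m ^ 3) * t + k) := by
        rw [hk]
        linear_combination e0 + t * e1
      rw [h3, htk]
      ring
    rcases flt3q h2 with h4 | h4
    · rw [h4, mul_zero, zero_add] at h2
      have hc : c = -1 := by
        have h5 : (c + 1) * ((c - 1 / 2) ^ 2 + 3 / 4) = 0 := by linear_combination h2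
        rcases mul_eq_zero.1 h5 with h3 | h3
        · linarith
        · have := sq_nonneg (c - 1 / 2)
          linarith
      refine ⟨m, Or.inr (Or.inl ?_)⟩
      rw [hY, hc]
      push_cast
      ring
    · rw [h4] at h2
      have ht1 : t = -1 := by
        have h5 : (t + 1) * ((t - 1 / 2) ^ 2 + 3 / 4) = 0 := by linear_combination h2
        rcases mul_eq_zero.1 h5 with h3 | h3
        · linarith
        · have := sq_nonneg (t - 1 / 2)
          linarith
      have hcm : c = m := by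
        rw [ht1] at h4
        linarith
      have hm0 : m ≠ 0 := by
        rintro rfl
        apply hY0
        rw [hY, hcm]
        simp
      have hm0' : (m : K) ≠ 0 := by exact_mod_cast hm0
      refine ⟨1 / m, Or.inr (Or.inr ?_)⟩
      rw [hY, hcm]
      push_cast
      field_simp

theorem cubic (hK : finrank ℚ K = 2) {X Y : K} (hX0 : X ≠ 0) (hY0 : Y ≠ 0)
    (h : X ^ 3 + Y ^ 3 + 1 = 0) :
    ∃ r : ℚ, X + Y = r ∨ Y + 1 = r * X ∨ X + 1 = r * Y := by
  by_cases hX : Rt X
  · by_cases hY : Rt Y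
    · exfalso
      obtain ⟨x, rfl⟩ := hX
      obtain ⟨y, rfl⟩ := hY
      have h1 : x ^ 3 + y ^ 3 + 1 = 0 := by exact_mod_cast h
      rcases flt3q h1 with h2 | h2
      · exact hX0 (by rw [h2]; simp)
      · exact hY0 (by rw [h2]; simp)
    · obtain ⟨r, h1 | h1 | h1⟩ := cubic_irr hK hY hX0 (by rw [← h]; ring)
      · exact ⟨r, Or.inl (by rw [← h1]; ring)⟩
      · exact ⟨r, Or.inr (Or.inr h1)⟩
      · exact ⟨r, Or.inr (Or.inl h1)⟩
  · exact cubic_irr hK hX hY0 h

/-- quadratic fields have no roots of unity of order prime to six -/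
lemma no_root (hK : finrank ℚ K = 2) {m : ℕ} (hm : m.Coprime 6) {η : K} (h : η ^ m = 1) :
    η = 1 := by
  by_contra hne
  have hm0 : m ≠ 0 := by
    rintro rfl
    exact absurd hm (by decide)
  have hord : orderOf η ∣ m := orderOf_dvd_of_pow_eq_one h
  have hord1 : orderOf η ≠ 1 := fun h1 => hne (orderOf_eq_one_iff.1 h1)
  obtain ⟨q, hq, hqd⟩ := Nat.exists_prime_and_dvd hord1
  have hqm : q ∣ m := hqd.trans hord
  have hq2 : q ≠ 2 := by
    rintro rfl
    have := Nat.dvd_gcd hqm (show 2 ∣ 6 by norm_num)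
    rw [hm] at this
    omega
  have hq3 : q ≠ 3 := by
    rintro rfl
    have := Nat.dvd_gcd hqm (show 3 ∣ 6 by norm_num)
    rw [hm] at this
    omega
  have hq5 : 5 ≤ q := by
    have h2 := hq.two_le
    by_contra hcon
    have : q = 4 := by omega
    subst this
    exact absurd hq (by decide)
  have hord0 : 0 < orderOf η := Nat.pos_of_ne_zero fun h0 => by
    rw [h0] at hord
    exact hm0 (Nat.eq_zero_of_zero_dvd hord)
  obtain ⟨d, hd⟩ := hqd
  have hprim : IsPrimitiveRoot (η ^ d) q := by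
    have h1 := IsPrimitiveRoot.orderOf η
    exact h1.pow hord0 (by rw [hd, mul_comm])
  have h2 := hprim.totient_le_degree_minpoly
  have hint : IsIntegral ℤ (η ^ d) := hprim.isIntegral hq.pos
  have h3 : (minpoly ℤ (η ^ d)).natDegree = (minpoly ℚ (η ^ d)).natDegree := by
    rw [minpoly.isIntegrallyClosed_eq_field_fractions' ℚ hint,
      Polynomial.natDegree_map_eq_of_injective (algebraMap ℤ ℚ).injective_int]
  have h4 : (minpoly ℚ (η ^ d)).natDegree ≤ finrank ℚ K := minpoly.natDegree_le _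
  rw [Nat.totient_prime hq] at h2
  omega

end Run7.h992
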