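import Pool.Agent.Run7.h992.ThC

/-!
# The second case for products `∏ (T - λ_i N)`, `λ_i = (1 - ζ ^ i) (1 - ζ ^ (-i))`
-/

set_option autoImplicit false
set_option linter.unusedSectionVars false

namespace Run7.h992

open NumberField Pool.Agent.Y158.KL Finset

variable {p : ℕ} [hp : Fact p.Prime] {K : Type} [Field K] [NumberField K]
  [hK : IsCyclotomicExtension {p} ℚ K] {ζ : K} (hζ : IsPrimitiveRoot ζ p)

/-- divide out the powers of `π` -/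
lemma split_pi {x : 𝓞 K} (hx : x ≠ 0) : ∃ (n : ℕ) (y : 𝓞 K), ¬ hζ.toInteger - 1 ∣ y ∧
    x = (hζ.toInteger - 1) ^ n * y := by
  have hfin : FiniteMultiplicity (hζ.toInteger - 1) x :=
    FiniteMultiplicity.of_prime_left (pi_prime hζ) hx
  obtain ⟨y, hy, hy'⟩ := hfin.exists_eq_pow_mul_and_not_dvd
  exact ⟨_, y, hy', hy⟩

include hζ in
theorem thS (h5 : 5 ≤ p) (hcop : (classNumber K).Coprime p)
    (hKL : ∀ (u : (𝓞 K)ˣ) (n : ℤ), (p : 𝓞 K) ∣ (u : 𝓞 K) - n → ∃ η : (𝓞 K)ˣ, u = η ^ p)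
    {T N W : 𝓞 K} (hTN : IsCoprime T N) (hN : ¬ hζ.toInteger - 1 ∣ N)
    (hT : (hζ.toInteger - 1) ^ 3 ∣ T) (hT0 : T ≠ 0)
    (h : ∏ i ∈ range p, (T - (2 - hζ.toInteger ^ i - hζ.toInteger ^ (p - i)) * N) = W ^ p) :
    False := by
  classical
  have hodd : Odd p := hp.out.odd_of_ne_two (by omega)
  have hp0 : 0 < p := hp.out.pos
  have hzp : hζ.toInteger ^ p = 1 := zpow_p hζ
  have hdiff : ∀ i, i < p → i ≠ 0 → ∃ u : (𝓞 K)ˣ, hζ.toInteger ^ i - 1 = (hζ.toInteger - 1) * u := by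
    intro i hi hi0
    obtain ⟨u, hu⟩ := zdiff hζ hi hp0 hi0
    exact ⟨u, by rw [← hu, pow_zero]⟩
  have hdiff2 : ∀ i, i < p → ∀ j, j < p → i ≠ j →
      ∃ u : (𝓞 K)ˣ, hζ.toInteger ^ i - hζ.toInteger ^ j = (hζ.toInteger - 1) * u :=
    fun i hi j hj hij => zdiff hζ hi hj hij
  obtain ⟨π, hπ⟩ : ∃ π : 𝓞 K, π = hζ.toInteger - 1 := ⟨_, rfl⟩
  obtain ⟨z, hz⟩ : ∃ z : 𝓞 K, z = hζ.toInteger := ⟨_, rfl⟩
  have hπp : Prime π := by rw [hπ]; exact pi_prime hζ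
  have hπ0 : π ≠ 0 := hπp.ne_zero
  simp only [← hπ] at hN hT hdiff hdiff2
  simp only [← hz] at h hzp hdiff hdiff2
  obtain ⟨T2, hT2⟩ := hT
  obtain ⟨T1, hT1⟩ : ∃ T1 : 𝓞 K, T1 = π * T2 := ⟨_, rfl⟩
  have hTT1 : T = π ^ 2 * T1 := by rw [hT1, hT2]; ring
  have hT10 : T1 ≠ 0 := by
    rintro h0
    rw [h0, mul_zero] at hTT1
    exact hT0 hTT1
  -- the elements `λ_i`
  have hlam : ∀ i : ℕ, ∃ v : (𝓞 K)ˣ, i ∈ (range p).erase 0 →
      2 - z ^ i - z ^ (p - i) = π ^ 2 * v := by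
    intro i
    by_cases hi : i ∈ (range p).erase 0
    · have hi0 := ne_of_mem_erase hi
      have hip := mem_range.1 (mem_of_mem_erase hi)
      obtain ⟨u, hu⟩ := hdiff i hip hi0
      obtain ⟨u', hu'⟩ := hdiff (p - i) (by omega) (by omega)
      refine ⟨u * u', fun _ => ?_⟩
      have h1 : z ^ i * z ^ (p - i) = 1 := by
        rw [← pow_add, Nat.add_sub_cancel' hip.le, hzp]
      push_cast
      linear_combination (z ^ (p - i) - 1) * hu + π * u * hu' - h1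
    · exact ⟨1, fun h => absurd h hi⟩
  choose v hv using hlam
  obtain ⟨q, hq⟩ : ∃ q : ℕ → 𝓞 K, q = fun i => T1 - v i * N := ⟨_, rfl⟩
  have hqi : ∀ i, q i = T1 - v i * N := fun i => by rw [hq]
  have hqT : ∀ i ∈ (range p).erase 0, T - (2 - z ^ i - z ^ (p - i)) * N = π ^ 2 * q i := by
    intro i hi
    rw [hqi, hv i hi, hTT1]
    ring
  have h0mem : (0 : ℕ) ∈ range p := mem_range.2 hp0
  have hprod : π ^ (2 * p) * (T1 * ∏ i ∈ (range p).erase 0, q i) = W ^ p := by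
    rw [← h, ← mul_prod_erase _ _ h0mem, Finset.prod_congr rfl hqT, prod_mul_distrib, prod_const,
      card_erase_of_mem h0mem, card_range, Nat.sub_zero, hzp, pow_zero, hTT1]
    have h1 : π ^ (2 * p) = π ^ 2 * (π ^ 2) ^ (p - 1) := by
      rw [← pow_succ', Nat.sub_add_cancel hp0, pow_mul]
    rw [h1]
    ring
  have hW : π ^ 2 ∣ W := by
    rw [← IsIntegrallyClosed.pow_dvd_pow_iff hp0.ne', ← hprod, ← pow_mul]
    exact Dvd.intro _ rfl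
  obtain ⟨W1, hW1⟩ := hW
  have hprod1 : T1 * ∏ i ∈ (range p).erase 0, q i = W1 ^ p := by
    apply mul_left_cancel₀ (pow_ne_zero (2 * p) hπ0)
    rw [hprod, hW1, mul_pow, pow_mul]
  -- units
  have hinv : ∀ u : (𝓞 K)ˣ, ((u⁻¹ : (𝓞 K)ˣ) : 𝓞 K) * u = 1 := fun u => by
    rw [← Units.val_mul, inv_mul_cancel, Units.val_one]
  obtain ⟨a, b, hab⟩ := hTN
  have hcT : ∀ i, IsCoprime (q i) T1 := by
    intro i
    -- N = v⁻¹ (T1 - q i)
    refine ⟨-b * ((v i)⁻¹ : (𝓞 K)ˣ), a * π ^ 2 + b * ((v i)⁻¹ : (𝓞 K)ˣ), ?_⟩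
    rw [hqi]
    rw [hTT1] at hab
    linear_combination hab + b * N * (hinv (v i))
  have hvdiff : ∀ i ∈ (range p).erase 0, ∀ j ∈ (range p).erase 0, i ≠ j → i + j ≠ p →
      ∃ u : (𝓞 K)ˣ, (v j : 𝓞 K) - v i = u := by
    intro i hi j hj hij hijp
    have hi0 := ne_of_mem_erase hi
    have hip := mem_range.1 (mem_of_mem_erase hi)
    have hj0 := ne_of_mem_erase hj
    have hjp := mem_range.1 (mem_of_mem_erase hj)
    obtain ⟨u, hu⟩ := hdiff2 i hip j hjp hij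
    -- `z ^ (p - j) (z^i - z^j) (1 - z ^ (p - i) z^(p-j)) z^j`
    obtain ⟨u', hu'⟩ := hdiff2 (p - i) (by omega) j hjp (by omega)
    -- λ_j - λ_i = z^i + z^(p-i) - z^j - z^(p-j) = -(z^i - z^j) (z^(p-i) - z^j) z^(p-j)
    have hzi : z ^ i * z ^ (p - i) = 1 := by
      rw [← pow_add, Nat.add_sub_cancel' hip.le, hzp]
    have hzj : z ^ j * z ^ (p - j) = 1 := by
      rw [← pow_add, Nat.add_sub_cancel' hjp.le, hzp]
    have hzu : IsUnit (z ^ (p - j)) := IsUnit.of_mul_eq_one (z ^ j) (by rw [mul_comm]; exact hzj)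
    obtain ⟨w, hw⟩ := hzu
    refine ⟨-u * u' * w, ?_⟩
    apply mul_left_cancel₀ (pow_ne_zero 2 hπ0)
    have e1 : π ^ 2 * ((v j : 𝓞 K) - v i) = (z ^ i + z ^ (p - i)) - (z ^ j + z ^ (p - j)) := by
      rw [mul_sub, ← hv i hi, ← hv j hj]
      ring
    rw [e1]
    push_cast
    rw [hw]
    linear_combination (-(z ^ (p - i) - z ^ j) * z ^ (p - j)) * hu - (π * u * z ^ (p - j)) * hu' +
      (z ^ (p - j)) * hzi - (z ^ i + z ^ (p - i) - z ^ j) * hzj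
  have hcq : ∀ i ∈ (range p).erase 0, ∀ j ∈ (range p).erase 0, i ≠ j → i + j ≠ p →
      IsCoprime (q i) (q j) := by
    intro i hi j hj hij hijp
    obtain ⟨u, hu⟩ := hvdiff i hi j hj hij hijp
    -- q i - q j = (v j - v i) N = u N; T1 = q i + v i N
    refine ⟨a * π ^ 2 * (1 + v i * (u⁻¹ : (𝓞 K)ˣ)) + b * (u⁻¹ : (𝓞 K)ˣ),
      -(a * π ^ 2 * (v i * (u⁻¹ : (𝓞 K)ˣ)) + b * (u⁻¹ : (𝓞 K)ˣ)), ?_⟩
    rw [hqi, hqi]
    rw [hTT1] at hab
    have h1 : ((u⁻¹ : (𝓞 K)ˣ) : 𝓞 K) * ((v j : 𝓞 K) - v i) = 1 := by rw [hu]; exact hinv u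
    linear_combination hab + (a * π ^ 2 * v i * N + b * N) * h1
  have hqsym : ∀ i ∈ (range p).erase 0, q (p - i) = q i := by
    intro i hi
    have hi0 := ne_of_mem_erase hi
    have hip := mem_range.1 (mem_of_mem_erase hi)
    have hpi : p - i ∈ (range p).erase 0 := mem_erase.2 ⟨by omega, mem_range.2 (by omega)⟩
    apply mul_left_cancel₀ (pow_ne_zero 2 hπ0)
    rw [← hqT i hi, ← hqT (p - i) hpi, show p - (p - i) = i by omega]
    ring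
  have hpq : ∀ i ∈ (range p).erase 0, ∃ (u : (𝓞 K)ˣ) (r : 𝓞 K), q i = u * r ^ p := by
    intro i hi
    have hi0 := ne_of_mem_erase hi
    have hip := mem_range.1 (mem_of_mem_erase hi)
    have hne : p - i ≠ i := by
      intro h1
      obtain ⟨k, hk⟩ := hodd
      omega
    have hpi : p - i ∈ ((range p).erase 0).erase i :=
      mem_erase.2 ⟨hne, mem_erase.2 ⟨by omega, mem_range.2 (by omega)⟩⟩
    have h1 : q i ^ 2 * (T1 * ∏ j ∈ (((range p).erase 0).erase i).erase (p - i), q j) = W1 ^ p := by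
      rw [← hprod1, ← mul_prod_erase _ _ hi, ← mul_prod_erase _ _ hpi, hqsym i hi]
      ring
    refine pw_sq hodd hcop ?_ ?_ h1
    · intro h0
      have h2 : π ∣ (v i : 𝓞 K) * N := by
        have h3 : (v i : 𝓞 K) * N = T1 - q i := by rw [hqi]; ring
        rw [h3, h0, sub_zero, hT1]
        exact Dvd.intro _ rfl
      exact hN ((Units.dvd_mul_left).1 h2)
    · refine IsCoprime.mul_right (hcT i) (IsCoprime.prod_right fun j hj => ?_)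
      have hj1 := ne_of_mem_erase hj
      have hj2 := ne_of_mem_erase (mem_of_mem_erase hj)
      have hj3 := mem_of_mem_erase (mem_of_mem_erase hj)
      refine hcq i hi j hj3 (Ne.symm hj2) ?_
      intro h2
      apply hj1
      omega
  have hTpow : ∃ (u : (𝓞 K)ˣ) (r : 𝓞 K), T1 = u * r ^ p :=
    pw hcop (IsCoprime.prod_right fun j _ => (hcT j).symm) hprod1
  obtain ⟨u0, r, e0⟩ := hTpow
  have h1mem : 1 ∈ (range p).erase 0 := mem_erase.2 ⟨one_ne_zero, mem_range.2 (by omega)⟩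
  have h2mem : 2 ∈ (range p).erase 0 := mem_erase.2 ⟨two_ne_zero, mem_range.2 (by omega)⟩
  obtain ⟨u1, r1, e1⟩ := hpq 1 h1mem
  obtain ⟨u2, r2, e2⟩ := hpq 2 h2mem
  have hr0 : r ≠ 0 := by
    rintro rfl
    rw [zero_pow hp0.ne', mul_zero] at e0
    exact hT10 e0
  obtain ⟨n, r0, hr0', hrn⟩ := split_pi hζ hr0
  rw [← hπ] at hr0' hrn
  have hn : 1 ≤ n := by
    by_contra hcon
    have hn0 : n = 0 := by omega
    rw [hn0, pow_zero, one_mul] at hrn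
    apply hr0'
    rw [← hrn]
    apply hπp.dvd_of_dvd_pow (n := p)
    have h1 : π ∣ u0 * r ^ p := by rw [← e0, hT1]; exact Dvd.intro _ rfl
    exact (Units.dvd_mul_left).1 h1
  obtain ⟨u3, hu3⟩ := hvdiff 1 h1mem 2 h2mem (by norm_num) (by omega)
  -- the relation
  have hrel : r1 ^ p + ((-(u1⁻¹ * v 1 * (v 2)⁻¹ * u2) : (𝓞 K)ˣ) : 𝓞 K) * r2 ^ p =
      ((u1⁻¹ * u3 * (v 2)⁻¹ * u0 : (𝓞 K)ˣ) : 𝓞 K) * (π ^ n * r0) ^ p := by
    have e1' : (u1 : 𝓞 K) * r1 ^ p = T1 - v 1 * N := by rw [← e1, hqi]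
    have e2' : (u2 : 𝓞 K) * r2 ^ p = T1 - v 2 * N := by rw [← e2, hqi]
    have e3 : r1 ^ p = (u1⁻¹ : (𝓞 K)ˣ) * (T1 - v 1 * N) := by
      rw [← e1', ← mul_assoc, hinv, one_mul]
    rw [← hrn]
    push_cast
    rw [e3]
    rw [e0] at e2' ⊢
    have i2 := hinv (v 2)
    linear_combination (-((u1⁻¹ : (𝓞 K)ˣ) : 𝓞 K) * v 1 * ((v 2)⁻¹ : (𝓞 K)ˣ)) * e2' +
      (((u1⁻¹ : (𝓞 K)ˣ) : 𝓞 K) * ((v 2)⁻¹ : (𝓞 K)ˣ) * u0 * r ^ p) * hu3 +
      (((u1⁻¹ : (𝓞 K)ˣ) : 𝓞 K) * v 1 * N - ((u1⁻¹ : (𝓞 K)ˣ) : 𝓞 K) * u0 * r ^ p) * i2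
  have hqπ : ∀ i, ¬ π ∣ q i := by
    intro i hd
    have h2 : π ∣ (v i : 𝓞 K) * N := by
      have h3 : (v i : 𝓞 K) * N = T1 - q i := by rw [hqi]; ring
      rw [h3]
      exact dvd_sub (by rw [hT1]; exact Dvd.intro _ rfl) hd
    exact hN ((Units.dvd_mul_left).1 h2)
  have hr2 : ¬ π ∣ r2 := by
    intro hd
    apply hqπ 2
    rw [e2]
    exact Dvd.dvd.mul_left (dvd_pow hd hp0.ne') _
  have hdivp : (p : 𝓞 K) ∣ r1 ^ p + ((-(u1⁻¹ * v 1 * (v 2)⁻¹ * u2) : (𝓞 K)ˣ) : 𝓞 K) * r2 ^ p := by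
    rw [hrel, mul_pow]
    have h6 : (p : 𝓞 K) ∣ (π ^ n) ^ p := by
      refine (p_dvd_pi_pow hζ).trans ?_
      rw [← hπ]
      exact pow_dvd_pow_of_dvd (dvd_pow_self π (by omega)) p
    exact Dvd.dvd.mul_left (h6.mul_right _) _
  obtain ⟨η, hη⟩ := glue hζ hKL (by rw [← hπ]; exact hr2) hdivp
  have hc12 : IsCoprime (q 1) (q 2) := hcq 1 h1mem 2 h2mem (by norm_num) (by omega)
  rw [e1, e2] at hc12
  have h8 : IsCoprime r1 r2 :=
    (hc12.of_isCoprime_of_dvd_left (Dvd.dvd.mul_left (dvd_pow_self r1 hp0.ne') _)).of_isCoprime_of_dvd_right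
      (Dvd.dvd.mul_left (dvd_pow_self r2 hp0.ne') _)
  refine thC hζ (by omega) hcop hKL n r1 (η * r2) r0 (u1⁻¹ * u3 * (v 2)⁻¹ * u0) hn ?_ ?_ ?_ ?_
  · exact (isCoprime_mul_unit_left_right η.isUnit r1 r2).2 h8
  · rw [← hπ]
    intro hd
    exact hr2 ((Units.dvd_mul_left).1 hd)
  · rw [← hπ]
    exact hr0'
  · rw [← hπ, ← hrel, mul_pow, hη]
    push_cast
    ring

end Run7.h992
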