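import Pool.Agent.Run7.h992.FCa
import Pool.Agent.Run7.h992.ThS

/-!
# Fermat's Last Theorem for regular primes, and the second case for integers
-/

set_option autoImplicit false
set_option linter.unusedSectionVars false

namespace Run7.h992

open NumberField Pool.Agent.Y158.KL Finset

variable {p : ℕ} [hp : Fact p.Prime] {K : Type} [Field K] [NumberField K]
  [hK : IsCyclotomicExtension {p} ℚ K] {ζ : K} (hζ : IsPrimitiveRoot ζ p)

include hζ in
/-- the second case -/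
theorem caseTwo (h2p : 2 < p) (hcop : (classNumber K).Coprime p)
    (hKL : ∀ (u : (𝓞 K)ˣ) (n : ℤ), (p : 𝓞 K) ∣ (u : 𝓞 K) - n → ∃ η : (𝓞 K)ˣ, u = η ^ p)
    {x y w : ℤ} (hxy : IsCoprime x y) (hy : ¬ (p : ℤ) ∣ y) (hw : (p : ℤ) ∣ w) (hw0 : w ≠ 0)
    (h : x ^ p + y ^ p = w ^ p) : False := by
  have hw0' : (w : 𝓞 K) ≠ 0 := by exact_mod_cast hw0
  obtain ⟨n, z, hz, hwz⟩ := split_pi hζ hw0'
  have hn : 1 ≤ n := by
    by_contra hcon
    have hn0 : n = 0 := by omega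
    rw [hn0, pow_zero, one_mul] at hwz
    apply hz
    rw [← hwz]
    exact (pi_dvd_int hζ).2 hw
  refine thC hζ h2p hcop hKL n (x : 𝓞 K) (y : 𝓞 K) z 1 hn ?_ (pi_not_int hζ hy) hz ?_
  · simpa using hxy.map (Int.castRingHom (𝓞 K))
  · rw [← hwz, Units.val_one, one_mul]
    exact_mod_cast congrArg (Int.cast : ℤ → 𝓞 K) h

include hζ in
/-- **Kummer.** Fermat's Last Theorem for regular primes `p ≥ 7`. -/
theorem fltReg (h7 : 7 ≤ p) (hcop : (classNumber K).Coprime p)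
    (hKL : ∀ (u : (𝓞 K)ˣ) (n : ℤ), (p : 𝓞 K) ∣ (u : 𝓞 K) - n → ∃ η : (𝓞 K)ˣ, u = η ^ p) :
    FermatLastTheoremWith ℤ p := by
  classical
  have hodd : Odd p := hp.out.odd_of_ne_two (by omega)
  have hpr : Prime (p : ℤ) := Nat.prime_iff_prime_int.1 hp.out
  refine fermatLastTheoremWith_of_fermatLastTheoremWith_coprime fun a b c ha hb hc hgcd h => ?_
  have h0 : a ^ p + b ^ p + (-c) ^ p = 0 := by rw [hodd.neg_pow, h]; ring
  have hg1 : ({a, b, -c} : Finset ℤ).gcd id = 1 := by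
    have hnc : normalize (-c) = normalize c := by
      rw [normalize_eq_normalize_iff]
      exact ⟨(neg_dvd).2 dvd_rfl, (dvd_neg).2 dvd_rfl⟩
    simp only [Finset.gcd_insert, id_eq, Finset.gcd_singleton] at hgcd ⊢
    rw [hnc]
    exact hgcd
  have hab : IsCoprime a b := isCoprime_of_gcd_eq_one_of_FLT hg1 h0
  have hac : IsCoprime a (-c) := by
    refine isCoprime_of_gcd_eq_one_of_FLT (n := p) (c := b) ?_ (by rw [← h0]; ring)
    rw [← hg1]
    congr 1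
    ext x
    simp only [mem_insert, mem_singleton]
    tauto
  have hbc : IsCoprime b (-c) := by
    refine isCoprime_of_gcd_eq_one_of_FLT (n := p) (c := a) ?_ (by rw [← h0]; ring)
    rw [← hg1]
    congr 1
    ext x
    simp only [mem_insert, mem_singleton]
    tauto
  have e1 : a ^ p + (-c) ^ p = (-b) ^ p := by
    rw [hodd.neg_pow, hodd.neg_pow, ← h]; ring
  have e2 : b ^ p + (-c) ^ p = (-a) ^ p := by
    rw [hodd.neg_pow, hodd.neg_pow, ← h]; ring
  have hnot : ∀ {u v : ℤ}, IsCoprime u v → (p : ℤ) ∣ u → ¬ (p : ℤ) ∣ v := by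
    intro u v huv h1 h2
    exact hpr.not_isUnit (huv.isUnit_of_dvd' h1 h2)
  by_cases hpc : (p : ℤ) ∣ c
  · exact caseTwo hζ (by omega) hcop hKL hab
      (fun h1 => hnot hbc h1 ((dvd_neg).2 hpc)) hpc hc h
  by_cases hpb : (p : ℤ) ∣ b
  · exact caseTwo hζ (by omega) hcop hKL hac (fun h1 => hpc ((dvd_neg).1 h1)) ((dvd_neg).2 hpb)
      (neg_ne_zero.2 hb) e1
  by_cases hpa : (p : ℤ) ∣ a
  · exact caseTwo hζ (by omega) hcop hKL hbc (fun h1 => hpc ((dvd_neg).1 h1)) ((dvd_neg).2 hpa)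
      (neg_ne_zero.2 ha) e2
  have k1 : (p : ℤ) ∣ a ^ 2 - b ^ 2 := by
    refine FClin hζ h7 hcop (m := 1) (w := c) hab (by rw [mul_one, h]) ?_ hpc hpa hpb
    rw [Int.cast_one]
    exact isCoprime_one_right
  have k2 : (p : ℤ) ∣ a ^ 2 - (-c) ^ 2 := by
    refine FClin hζ h7 hcop (m := 1) (w := -b) hac (by rw [mul_one, e1]) ?_
      (fun h1 => hpb ((dvd_neg).1 h1)) hpa (fun h1 => hpc ((dvd_neg).1 h1))
    rw [Int.cast_one]
    exact isCoprime_one_right
  -- modulo `p`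
  have hza : (a : ZMod p) ≠ 0 := by
    rw [Ne, ZMod.intCast_zmod_eq_zero_iff_dvd]
    exact hpa
  have k1' : (a : ZMod p) ^ 2 - (b : ZMod p) ^ 2 = 0 := by
    have := (ZMod.intCast_zmod_eq_zero_iff_dvd _ p).2 k1
    push_cast at this
    exact this
  have k2' : (a : ZMod p) ^ 2 - (c : ZMod p) ^ 2 = 0 := by
    have := (ZMod.intCast_zmod_eq_zero_iff_dvd _ p).2 k2
    push_cast at this
    rw [neg_sq] at this
    exact this
  have k3 : (a : ZMod p) + b = c := by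
    have := congrArg (Int.cast : ℤ → ZMod p) h
    push_cast at this
    rwa [ZMod.pow_card, ZMod.pow_card, ZMod.pow_card] at this
  have k4 : (a : ZMod p) * (a + 2 * b) = 0 := by
    rw [← k3] at k2'
    linear_combination (-1 : ZMod p) * k2' + k1'
  have k5 := (mul_eq_zero.1 k4).resolve_left hza
  have k6 : (3 : ZMod p) * (a * a) = 0 := by
    linear_combination 4 * k1' - ((a : ZMod p) - 2 * b) * k5
  have h3 : (3 : ZMod p) ≠ 0 := by
    intro h3
    have h4 : ((3 : ℕ) : ZMod p) = 0 := by exact_mod_cast h3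
    rw [ZMod.natCast_eq_zero_iff] at h4
    have := Nat.le_of_dvd (by norm_num) h4
    omega
  exact mul_ne_zero h3 (mul_ne_zero hza hza) k6

include hζ in
/-- the second case for products -/
theorem thSint (h5 : 5 ≤ p) (hcop : (classNumber K).Coprime p)
    (hKL : ∀ (u : (𝓞 K)ˣ) (n : ℤ), (p : 𝓞 K) ∣ (u : 𝓞 K) - n → ∃ η : (𝓞 K)ˣ, u = η ^ p)
    {T N W : ℤ} (hTN : IsCoprime T N) (hN : ¬ (p : ℤ) ∣ N) (hW : (p : ℤ) ∣ W) (hW0 : W ≠ 0)
    (h : ∏ i ∈ range p, ((T : 𝓞 K) - (2 - hζ.toInteger ^ i - hζ.toInteger ^ (p - i)) * N) =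
      (W : 𝓞 K) ^ p) : False := by
  classical
  have hp0 : 0 < p := hp.out.pos
  have hzp : hζ.toInteger ^ p = 1 := zpow_p hζ
  have h1 : hζ.toInteger - 1 ∣ (T : 𝓞 K) := by
    have h2 : hζ.toInteger - 1 ∣ ∏ i ∈ range p,
        ((T : 𝓞 K) - (2 - hζ.toInteger ^ i - hζ.toInteger ^ (p - i)) * N) := by
      rw [h]
      exact dvd_pow ((pi_dvd_int hζ).2 hW) hp0.ne'
    obtain ⟨i, hi, hi'⟩ := ((pi_prime hζ).dvd_finsetProd_iff _).1 h2
    have h3 : (T : 𝓞 K) = ((T : 𝓞 K) - (2 - hζ.toInteger ^ i - hζ.toInteger ^ (p - i)) * N) -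
        (hζ.toInteger ^ i - 1) * N - (hζ.toInteger ^ (p - i) - 1) * N := by ring
    rw [h3]
    exact dvd_sub (dvd_sub hi' ((pi_dvd_zpow hζ i).mul_right _)) ((pi_dvd_zpow hζ _).mul_right _)
  have hpT : (p : ℤ) ∣ T := (pi_dvd_int hζ).1 h1
  obtain ⟨t, ht⟩ := hpT
  obtain ⟨u, hu⟩ := p_assoc hζ
  refine thS hζ h5 hcop hKL (T := (T : 𝓞 K)) (N := (N : 𝓞 K)) (W := (W : 𝓞 K)) ?_
    (pi_not_int hζ hN) ?_ ?_ h
  · simpa using hTN.map (Int.castRingHom (𝓞 K))
  · refine (pow_dvd_pow _ (show 3 ≤ p - 1 by omega)).trans ?_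
    rw [ht]
    push_cast
    rw [hu]
    exact ⟨u * t, by ring⟩
  · intro hT0
    have h0mem : 0 ∈ range p := mem_range.2 hp0
    rw [← mul_prod_erase _ _ h0mem, hT0, pow_zero, Nat.sub_zero, hzp] at h
    have h4 : (W : 𝓞 K) ^ p = 0 := by
      rw [← h]
      ring
    exact hW0 (by exact_mod_cast pow_eq_zero_iff hp0.ne' |>.1 h4)

end Run7.h992
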