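import Pool.Agent.Run7.h992.Cyc

/-!
# The second case of Fermat's Last Theorem in the `p`-th cyclotomic field, `p` regular
-/

set_option autoImplicit false
set_option linter.unusedSectionVars false

namespace Run7.h992

open NumberField Pool.Agent.Y158.KL Finset

variable {p : ℕ} [hp : Fact p.Prime] {K : Type} [Field K] [NumberField K]
  [hK : IsCyclotomicExtension {p} ℚ K] {ζ : K} (hζ : IsPrimitiveRoot ζ p)

include hζ in
/-- some conjugate sum is divisible by the square of `π` -/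
theorem find_j {x y : 𝓞 K} (hxy : hζ.toInteger - 1 ∣ x + y) (hy : ¬ hζ.toInteger - 1 ∣ y) :
    ∃ j : ℕ, (hζ.toInteger - 1) ^ 2 ∣ x + hζ.toInteger ^ j * y := by
  obtain ⟨f, hf⟩ := hxy
  obtain ⟨n, t, ht⟩ := res_int hζ f
  obtain ⟨m, s, hs⟩ := res_int hζ y
  have h1 : (m : ZMod p) ≠ 0 := by
    intro h
    rw [ZMod.intCast_zmod_eq_zero_iff_dvd] at h
    apply hy
    have h2 := (pi_dvd_int hζ).2 h
    have h3 : y = (hζ.toInteger - 1) * s + m := by rw [← hs]; ring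
    rw [h3]
    exact dvd_add (Dvd.intro _ rfl) h2
  obtain ⟨j, hj⟩ : ∃ j : ℕ, (j : ZMod p) = -n * (m : ZMod p)⁻¹ :=
    ⟨(-n * (m : ZMod p)⁻¹).val, by rw [ZMod.natCast_val, ZMod.cast_id', id]⟩
  have h4 : (p : ℤ) ∣ n + j * m := by
    rw [← ZMod.intCast_zmod_eq_zero_iff_dvd]
    push_cast
    rw [hj, mul_assoc, inv_mul_cancel₀ h1]
    ring
  have h5 : hζ.toInteger - 1 ∣ ((n + j * m : ℤ) : 𝓞 K) := (pi_dvd_int hζ).2 h4
  obtain ⟨q, hq⟩ := h5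
  -- the geometric sum
  obtain ⟨g, hg⟩ := pi_dvd_zpow hζ j
  have h6 : hζ.toInteger - 1 ∣ g - j := by
    have h7 : g = ∑ i ∈ range j, hζ.toInteger ^ i := by
      apply mul_left_cancel₀ (pi_ne_zero hζ)
      rw [← hg, mul_comm, geom_sum_mul]
    have h8 : g - j = ∑ i ∈ range j, (hζ.toInteger ^ i - 1) := by
      rw [h7, sum_sub_distrib, sum_const, card_range, nsmul_eq_mul, mul_one]
    rw [h8]
    exact dvd_sum fun i _ => pi_dvd_zpow hζ i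
  obtain ⟨r, hr⟩ := h6
  refine ⟨j, t + g * s + r * m + q, ?_⟩
  push_cast at hq
  linear_combination hf + y * hg + (hζ.toInteger - 1) * ht + (hζ.toInteger - 1) * g * hs +
    (hζ.toInteger - 1) * m * hr + (hζ.toInteger - 1) * hq

include hζ in
/-- one step of the descent -/
theorem stepC (h2p : 2 < p) (hcop : (classNumber K).Coprime p)
    (hKL : ∀ (u : (𝓞 K)ˣ) (n : ℤ), (p : 𝓞 K) ∣ (u : 𝓞 K) - n → ∃ η : (𝓞 K)ˣ, u = η ^ p)
    {n : ℕ} (hn : 1 ≤ n) {x y z : 𝓞 K} {ε : (𝓞 K)ˣ} (hxy : IsCoprime x y)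
    (hy : ¬ hζ.toInteger - 1 ∣ y) (hz : ¬ hζ.toInteger - 1 ∣ z)
    (h2 : (hζ.toInteger - 1) ^ 2 ∣ x + y)
    (h : x ^ p + y ^ p = ε * ((hζ.toInteger - 1) ^ n * z) ^ p) :
    2 ≤ n ∧ ∃ (x' y' z' : 𝓞 K) (ε' : (𝓞 K)ˣ), IsCoprime x' y' ∧ ¬ hζ.toInteger - 1 ∣ y' ∧
      ¬ hζ.toInteger - 1 ∣ z' ∧ x' ^ p + y' ^ p = ε' * ((hζ.toInteger - 1) ^ (n - 1) * z') ^ p := by
  classical
  have hodd : Odd p := hp.out.odd_of_ne_two (by omega)
  have hp0 : 0 < p := hp.out.pos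
  obtain ⟨π, hπ⟩ : ∃ π : 𝓞 K, π = hζ.toInteger - 1 := ⟨_, rfl⟩
  obtain ⟨w, hw⟩ : ∃ w : 𝓞 K, w = hζ.toInteger := ⟨_, rfl⟩
  have hπp : Prime π := by rw [hπ]; exact pi_prime hζ
  have hπ0 : π ≠ 0 := hπp.ne_zero
  rw [← hπ] at h h2 hy hz ⊢
  obtain ⟨a0, ha0⟩ := h2
  have hdvd : ∀ i, π ∣ x + w ^ i * y := by
    intro i
    have h3 : x + w ^ i * y = (x + y) + (w ^ i - 1) * y := by ring
    rw [h3]
    refine dvd_add ⟨π * a0, by rw [ha0]; ring⟩ (Dvd.dvd.mul_right ?_ y)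
    rw [hπ, hw]
    exact pi_dvd_zpow hζ i
  choose f hf using hdvd
  have hf0 : f 0 = π * a0 := by
    apply mul_left_cancel₀ hπ0
    rw [← hf 0, pow_zero, one_mul, ha0]
    ring
  have hdiff : ∀ i ∈ range p, ∀ j ∈ range p, i ≠ j → ∃ u : (𝓞 K)ˣ, f i = f j + u * y := by
    intro i hi j hj hij
    obtain ⟨u, hu⟩ := zdiff hζ (mem_range.1 hi) (mem_range.1 hj) hij
    rw [← hπ, ← hw] at hu
    refine ⟨u, ?_⟩
    apply mul_left_cancel₀ hπ0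
    linear_combination (hf j) - (hf i) + y * hu
  have hfi : ∀ i ∈ range p, i ≠ 0 → ¬ π ∣ f i := by
    intro i hi hi0 hd
    obtain ⟨u, hu⟩ := hdiff i hi 0 (mem_range.2 hp0) hi0
    rw [hu, hf0] at hd
    have h3 : π ∣ u * y := (dvd_add_right (Dvd.intro _ rfl)).1 hd
    exact hy ((Units.dvd_mul_left).1 h3)
  have hcopf : ∀ i ∈ range p, ∀ j ∈ range p, i ≠ j → IsCoprime (f i) (f j) := by
    intro i hi j hj hij
    obtain ⟨u, hu⟩ := hdiff i hi j hj hij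
    obtain ⟨a, b, hab⟩ := hxy
    have hu1 : ((u⁻¹ : (𝓞 K)ˣ) : 𝓞 K) * u = 1 := by rw [← Units.val_mul, inv_mul_cancel, Units.val_one]
    -- y = u⁻¹ (f i - f j), x = π f i - w ^ i y
    refine ⟨a * π - a * w ^ i * ((u⁻¹ : (𝓞 K)ˣ) : 𝓞 K) + b * ((u⁻¹ : (𝓞 K)ˣ) : 𝓞 K),
      a * w ^ i * ((u⁻¹ : (𝓞 K)ˣ) : 𝓞 K) - b * ((u⁻¹ : (𝓞 K)ˣ) : 𝓞 K), ?_⟩
    have hyy : y = ((u⁻¹ : (𝓞 K)ˣ) : 𝓞 K) * (f i - f j) := by
      rw [hu]
      linear_combination (-y) * hu1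
    have hxx : x = π * f i - w ^ i * (((u⁻¹ : (𝓞 K)ˣ) : 𝓞 K) * (f i - f j)) := by
      rw [← hyy]
      linear_combination hf i
    rw [hxx, hyy] at hab
    linear_combination hab
  have hprod : ∏ i ∈ range p, f i = ε * (π ^ (n - 1) * z) ^ p := by
    apply mul_left_cancel₀ (pow_ne_zero p hπ0)
    have h3 : ∏ i ∈ range p, (x + w ^ i * y) = x ^ p + y ^ p := by
      rw [hw]
      exact prod_add hodd hζ.toInteger_isPrimitiveRoot x y
    have h4 : ∏ i ∈ range p, (x + w ^ i * y) = π ^ p * ∏ i ∈ range p, f i := by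
      rw [Finset.prod_congr rfl fun i _ => hf i, prod_mul_distrib, prod_const, card_range]
    rw [← h4, h3, h]
    obtain ⟨m, rfl⟩ : ∃ m, n = m + 1 := ⟨n - 1, by omega⟩
    rw [Nat.add_sub_cancel]
    ring
  have hn2 : 2 ≤ n := by
    by_contra hcon
    have hn1 : n = 1 := by omega
    have h3 : π ∣ ∏ i ∈ range p, f i :=
      Dvd.dvd.trans (Dvd.intro a0 hf0.symm) (dvd_prod_of_mem f (mem_range.2 hp0))
    rw [hprod, hn1] at h3
    simp only [Nat.sub_self, pow_zero, one_mul] at h3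
    exact hz (hπp.dvd_of_dvd_pow ((Units.dvd_mul_left).1 h3))
  refine ⟨hn2, ?_⟩
  -- the factor `f 0`
  have h0mem : (0 : ℕ) ∈ range p := mem_range.2 hp0
  have hQ : ¬ π ∣ ∏ i ∈ (range p).erase 0, f i := by
    intro hd
    obtain ⟨i, hi, hi'⟩ := (hπp.dvd_finsetProd_iff f).1 hd
    exact hfi i (mem_of_mem_erase hi) (ne_of_mem_erase hi) hi'
  have hfQ : f 0 * ∏ i ∈ (range p).erase 0, f i = ε * (π ^ (n - 1) * z) ^ p := by
    rw [mul_prod_erase _ _ h0mem, hprod]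
  have hdv : (π ^ (n - 1)) ^ p ∣ f 0 := by
    rw [← pow_mul]
    refine hπp.pow_dvd_of_dvd_mul_right _ hQ ?_
    rw [hfQ, mul_pow, pow_mul]
    exact ⟨ε * z ^ p, by ring⟩
  obtain ⟨g, hg⟩ := hdv
  have hπn : (π ^ (n - 1)) ^ p ≠ 0 := pow_ne_zero _ (pow_ne_zero _ hπ0)
  have hgQ : g * ∏ i ∈ (range p).erase 0, f i = ε * z ^ p := by
    apply mul_left_cancel₀ hπn
    rw [← mul_assoc, ← hg, hfQ]
    ring
  have hε1 : ((ε⁻¹ : (𝓞 K)ˣ) : 𝓞 K) * ε = 1 := by rw [← Units.val_mul, inv_mul_cancel, Units.val_one]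
  obtain ⟨k, hk⟩ : ∃ k : ℕ → 𝓞 K, k = fun i => if i = 0 then ((ε⁻¹ : (𝓞 K)ˣ) : 𝓞 K) * g else f i :=
    ⟨_, rfl⟩
  have hk0 : k 0 = ((ε⁻¹ : (𝓞 K)ˣ) : 𝓞 K) * g := by rw [hk]; simp
  have hki : ∀ i, i ≠ 0 → k i = f i := by
    intro i hi
    rw [hk]
    simp [hi]
  have hkf : ∀ i, k i ∣ f i := by
    intro i
    by_cases hi : i = 0
    · subst hi
      rw [hk0, hg]
      refine ⟨ε * (π ^ (n - 1)) ^ p, ?_⟩
      linear_combination (-(π ^ (n - 1)) ^ p * g) * hε1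
    · rw [hki i hi]
  have hkprod : ∏ i ∈ range p, k i = z ^ p := by
    rw [← mul_prod_erase _ _ h0mem, hk0,
      Finset.prod_congr rfl fun i hi => hki i (ne_of_mem_erase hi), mul_assoc, hgQ]
    linear_combination (z ^ p) * hε1
  have hkcop : ∀ i ∈ range p, ∀ j ∈ range p, i ≠ j → IsCoprime (k i) (k j) := by
    intro i hi j hj hij
    exact ((hcopf i hi j hj hij).of_isCoprime_of_dvd_left (hkf i)).of_isCoprime_of_dvd_right (hkf j)
  have hpow : ∀ i ∈ range p, ∃ (u : (𝓞 K)ˣ) (r : 𝓞 K), k i = u * r ^ p := by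
    intro i hi
    refine pw (y := ∏ j ∈ (range p).erase i, k j) (w := z) hcop ?_ ?_
    · exact IsCoprime.prod_right fun j hj =>
        hkcop i hi j (mem_of_mem_erase hj) (ne_of_mem_erase hj).symm
    · rw [mul_prod_erase _ _ hi, hkprod]
  have h1mem : 1 ∈ range p := mem_range.2 (by omega)
  have hlmem : p - 1 ∈ range p := mem_range.2 (by omega)
  obtain ⟨u0, r0, e0⟩ := hpow 0 h0mem
  obtain ⟨u1, r1, e1⟩ := hpow 1 h1mem
  obtain ⟨u2, r2, e2⟩ := hpow (p - 1) hlmem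
  obtain ⟨uz, huz⟩ := z_unit hζ
  obtain ⟨uo, huo⟩ := one_add_z_unit hζ h2p
  rw [← hw] at huz huo
  have hrel : f 1 + w * f (p - 1) = (1 + w) * f 0 := by
    apply mul_left_cancel₀ hπ0
    have h5 : w ^ (p - 1) * w = 1 := by
      rw [← pow_succ, Nat.sub_add_cancel hp0, hw]
      exact zpow_p hζ
    linear_combination (-1) * (hf 1) - w * hf (p - 1) + (1 + w) * (hf 0) + y * h5
  have hf0' : f 0 = (π ^ (n - 1)) ^ p * (ε * (u0 * r0 ^ p)) := by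
    rw [hg, ← e0, hk0]
    linear_combination (-(π ^ (n - 1)) ^ p * g) * hε1
  have hrel2 : (u1 : 𝓞 K) * r1 ^ p + uz * (u2 * r2 ^ p) =
      uo * ((π ^ (n - 1)) ^ p * (ε * (u0 * r0 ^ p))) := by
    rw [← e1, ← e2, hki 1 (by norm_num), hki (p - 1) (by omega), ← hf0', huz, huo, hrel]
  have hu1 : ((u1⁻¹ : (𝓞 K)ˣ) : 𝓞 K) * u1 = 1 := by
    rw [← Units.val_mul, inv_mul_cancel, Units.val_one]
  have hrel3 : r1 ^ p + ((u1⁻¹ * uz * u2 : (𝓞 K)ˣ) : 𝓞 K) * r2 ^ p =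
      ((u1⁻¹ * uo * ε * u0 : (𝓞 K)ˣ) : 𝓞 K) * (π ^ (n - 1) * r0) ^ p := by
    push_cast
    linear_combination ((u1⁻¹ : (𝓞 K)ˣ) : 𝓞 K) * hrel2 - (r1 ^ p) * hu1
  have hr2 : ¬ π ∣ r2 := by
    intro hd
    apply hfi (p - 1) hlmem (by omega)
    rw [← hki (p - 1) (by omega), e2]
    exact Dvd.dvd.mul_left (dvd_pow hd hp0.ne') _
  have hr0 : ¬ π ∣ r0 := by
    intro hd
    apply hz
    apply hπp.dvd_of_dvd_pow (n := p)
    rw [← hkprod]
    refine Dvd.dvd.trans ?_ (dvd_prod_of_mem k h0mem)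
    rw [e0]
    exact Dvd.dvd.mul_left (dvd_pow hd hp0.ne') _
  have hdivp : (p : 𝓞 K) ∣ r1 ^ p + ((u1⁻¹ * uz * u2 : (𝓞 K)ˣ) : 𝓞 K) * r2 ^ p := by
    rw [hrel3, mul_pow]
    have h6 : (p : 𝓞 K) ∣ (π ^ (n - 1)) ^ p := by
      refine (p_dvd_pi_pow hζ).trans ?_
      rw [← hπ]
      exact pow_dvd_pow_of_dvd (dvd_pow_self π (by omega)) p
    exact Dvd.dvd.mul_left (h6.mul_right _) _
  obtain ⟨η, hη⟩ := glue hζ hKL (by rw [← hπ]; exact hr2) hdivp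
  refine ⟨r1, η * r2, r0, u1⁻¹ * uo * ε * u0, ?_, ?_, hr0, ?_⟩
  · have h7 : IsCoprime (k 1) (k (p - 1)) := hkcop 1 h1mem (p - 1) hlmem (by omega)
    rw [e1, e2] at h7
    have h8 : IsCoprime r1 r2 :=
      (h7.of_isCoprime_of_dvd_left (Dvd.dvd.mul_left (dvd_pow_self r1 hp0.ne') _)).of_isCoprime_of_dvd_right
        (Dvd.dvd.mul_left (dvd_pow_self r2 hp0.ne') _)
    exact (isCoprime_mul_unit_left_right η.isUnit r1 r2).2 h8
  · intro hd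
    exact hr2 ((Units.dvd_mul_left).1 hd)
  · rw [← hrel3, mul_pow, hη]
    push_cast
    ring

include hζ in
/-- There are no solutions in the second case. -/
theorem thC (h2p : 2 < p) (hcop : (classNumber K).Coprime p)
    (hKL : ∀ (u : (𝓞 K)ˣ) (n : ℤ), (p : 𝓞 K) ∣ (u : 𝓞 K) - n → ∃ η : (𝓞 K)ˣ, u = η ^ p)
    (n : ℕ) : ∀ (x y z : 𝓞 K) (ε : (𝓞 K)ˣ), 1 ≤ n → IsCoprime x y → ¬ hζ.toInteger - 1 ∣ y →
      ¬ hζ.toInteger - 1 ∣ z → x ^ p + y ^ p = ε * ((hζ.toInteger - 1) ^ n * z) ^ p → False := by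
  induction n with
  | zero => intro x y z ε h1; omega
  | succ n ih =>
    intro x y z ε hn hxy hy hz h
    have hodd : Odd p := hp.out.odd_of_ne_two (by omega)
    have hp0 : 0 < p := hp.out.pos
    have h1 : hζ.toInteger - 1 ∣ x + y := by
      have h2 : hζ.toInteger - 1 ∣ ∏ i ∈ range p, (x + hζ.toInteger ^ i * y) := by
        rw [prod_add hodd hζ.toInteger_isPrimitiveRoot, h]
        refine Dvd.dvd.mul_left ?_ _
        exact dvd_pow (Dvd.dvd.mul_right (dvd_pow_self _ (by omega)) _) hp0.ne'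
      obtain ⟨i, hi, hi'⟩ := ((pi_prime hζ).dvd_finsetProd_iff _).1 h2
      have h3 : x + y = (x + hζ.toInteger ^ i * y) - (hζ.toInteger ^ i - 1) * y := by ring
      rw [h3]
      exact dvd_sub hi' ((pi_dvd_zpow hζ i).mul_right _)
    obtain ⟨j, hj⟩ := find_j hζ h1 hy
    have hzj : IsUnit (hζ.toInteger ^ j) := (hζ.toInteger_isPrimitiveRoot.isUnit hp.out.ne_zero).pow j
    have h4 : x ^ p + (hζ.toInteger ^ j * y) ^ p = ε * ((hζ.toInteger - 1) ^ (n + 1) * z) ^ p := by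
      rw [← h, mul_pow, ← pow_mul, mul_comm j p, pow_mul, zpow_p hζ, one_pow, one_mul]
    obtain ⟨hn2, x', y', z', ε', h5, h6, h7, h8⟩ := stepC hζ h2p hcop hKL hn
      ((isCoprime_mul_unit_left_right hzj x y).2 hxy)
      (fun hd => hy ((hzj.dvd_mul_left).1 hd)) hz hj h4
    rw [Nat.add_sub_cancel] at h8
    exact ih x' y' z' ε' (by omega) h5 h6 h7 h8

end Run7.h992
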